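import Pool.Agent.K9h26.CN.Pairs

set_option autoImplicit false

/-!
# Averaging over sets of inner indices
-/

namespace Pool.Agent.K9h26.CN

open Finset Pool.Agent.H88R3.MM Pool.Agent.H522R2 Pool.Agent.H522R2.Circuit

theorem card_two_le {m s : ℕ} {x y : Fin m} (hxy : x ≠ y) (hs : 2 ≤ s) :
    ((powersetCard s (univ : Finset (Fin m))).filter fun K => x ∈ K ∧ y ∈ K).card ≤
      (m - 2).choose (s - 2) := by
  classical
  have h1 : (((univ : Finset (Fin m)).erase x).erase y).card = m - 2 := by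
    rw [card_erase_of_mem (mem_erase.2 ⟨hxy.symm, mem_univ _⟩), card_erase_of_mem (mem_univ _),
      card_univ, Fintype.card_fin]
    omega
  rw [← h1, ← card_powersetCard]
  refine card_le_card_of_injOn (fun K => (K.erase x).erase y) (fun K hK => ?_) ?_
  · rw [mem_coe, mem_filter, mem_powersetCard] at hK
    obtain ⟨⟨_, h2⟩, hx, hy⟩ := hK
    rw [mem_coe, mem_powersetCard]
    refine ⟨erase_subset_erase _ (erase_subset_erase _ (subset_univ _)), ?_⟩
    rw [card_erase_of_mem (mem_erase.2 ⟨hxy.symm, hy⟩), card_erase_of_mem hx, h2]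
    omega
  · intro K hK L hL he
    rw [mem_coe, mem_filter] at hK hL
    have h2 : insert x (insert y ((K.erase x).erase y)) = K := by
      rw [insert_erase (mem_erase.2 ⟨hxy.symm, hK.2.2⟩), insert_erase hK.2.1]
    have h3 : insert x (insert y ((L.erase x).erase y)) = L := by
      rw [insert_erase (mem_erase.2 ⟨hxy.symm, hL.2.2⟩), insert_erase hL.2.1]
    simp only at he
    rw [← h2, ← h3, he]

theorem choose_two {m s : ℕ} (hs : 2 ≤ s) (hm : s ≤ m) :
    (m - 2).choose (s - 2) * (m * (m - 1)) = m.choose s * (s * (s - 1)) := by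
  obtain ⟨s, rfl⟩ : ∃ s', s = s' + 2 := ⟨s - 2, by omega⟩
  obtain ⟨m, rfl⟩ : ∃ m', m = m' + 2 := ⟨m - 2, by omega⟩
  rw [Nat.add_sub_cancel, Nat.add_sub_cancel, show m + 2 - 1 = m + 1 by omega,
    show s + 2 - 1 = s + 1 by omega]
  have h1 := Nat.add_one_mul_choose_eq (m + 1) (s + 1)
  have h2 := Nat.add_one_mul_choose_eq m s
  calc m.choose s * ((m + 2) * (m + 1)) = (m + 2) * ((m + 1) * m.choose s) := by ring
    _ = (m + 2) * ((m + 1).choose (s + 1) * (s + 1)) := by rw [h2]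
    _ = (m + 2) * (m + 1).choose (s + 1) * (s + 1) := by ring
    _ = (m + 2).choose (s + 2) * (s + 2) * (s + 1) := by rw [h1]
    _ = _ := by ring

open Classical in
/-- averaging over the sets of `s` inner indices -/
theorem avg {ι : Type*} {m s : ℕ} (hs : s ≤ m) (N : Finset ι) (E : ι → Finset (Fin m × Fin m))
    (hE : ∀ v, ∀ x ∈ E v, x.1 ≠ x.2) : ∃ K : Finset (Fin m), K.card = s ∧
      (N.filter fun v => ∃ x ∈ E v, x.1 ∈ K ∧ x.2 ∈ K).card * (m * (m - 1)) ≤
        s * (s - 1) * ∑ v ∈ N, (E v).card := by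
  rcases lt_or_ge s 2 with hs2 | hs2
  · obtain ⟨K, hK, hKc⟩ := exists_subset_card_eq (s := (univ : Finset (Fin m))) (n := s)
      (by rw [card_univ, Fintype.card_fin]; exact hs)
    refine ⟨K, hKc, ?_⟩
    have h1 : (N.filter fun v => ∃ x ∈ E v, x.1 ∈ K ∧ x.2 ∈ K) = ∅ := by
      rw [filter_eq_empty_iff]
      rintro v _ ⟨x, hx, h1, h2⟩
      have h3 := card_le_one.1 (by omega : K.card ≤ 1) _ h1 _ h2
      exact hE v x hx h3
    rw [h1, card_empty, zero_mul]
    exact Nat.zero_le _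
  by_contra hcon
  push Not at hcon
  set P := powersetCard s (univ : Finset (Fin m)) with hP
  have hPc : P.card = m.choose s := by
    rw [hP, card_powersetCard, card_univ, Fintype.card_fin]
  have hPne : P.Nonempty := by
    rw [← card_pos, hPc]
    exact Nat.choose_pos hs
  have h1 : ∑ K ∈ P, s * (s - 1) * ∑ v ∈ N, (E v).card <
      ∑ K ∈ P, (N.filter fun v => ∃ x ∈ E v, x.1 ∈ K ∧ x.2 ∈ K).card * (m * (m - 1)) := by
    refine sum_lt_sum_of_nonempty hPne fun K hK => ?_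
    rw [hP, mem_powersetCard] at hK
    exact hcon K hK.2
  rw [sum_const, smul_eq_mul, hPc, ← sum_mul] at h1
  have h2 : ∑ K ∈ P, (N.filter fun v => ∃ x ∈ E v, x.1 ∈ K ∧ x.2 ∈ K).card ≤
      ∑ K ∈ P, ∑ v ∈ N, ∑ x ∈ E v, if x.1 ∈ K ∧ x.2 ∈ K then 1 else 0 := by
    refine sum_le_sum fun K _ => ?_
    rw [card_filter]
    refine sum_le_sum fun v _ => ?_
    split_ifs with h
    · obtain ⟨x, hx, h'⟩ := h
      refine le_trans ?_ (single_le_sum (f := fun x : Fin m × Fin m =>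
        if x.1 ∈ K ∧ x.2 ∈ K then 1 else 0) (fun _ _ => Nat.zero_le _) hx)
      rw [if_pos h']
    · exact Nat.zero_le _
  have h3 : ∑ K ∈ P, ∑ v ∈ N, ∑ x ∈ E v, (if x.1 ∈ K ∧ x.2 ∈ K then 1 else 0) ≤
      (∑ v ∈ N, (E v).card) * (m - 2).choose (s - 2) := by
    rw [sum_comm, sum_mul]
    refine sum_le_sum fun v _ => ?_
    rw [sum_comm]
    rw [← smul_eq_mul, ← sum_const]
    refine sum_le_sum fun x hx => ?_
    rw [← card_filter]
    exact card_two_le (hE v x hx) hs2
  have h4 := (Nat.mul_le_mul_right (m * (m - 1)) (h2.trans h3))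
  rw [mul_assoc, choose_two hs2 hs] at h4
  have h5 := lt_of_lt_of_le h1 h4
  refine absurd h5 (not_lt.2 (le_of_eq ?_))
  ring

section mm

variable {F : Type*} [Field F] {m : ℕ} {C : Circuit F (Vars m)}

/-- **the master inequality** -/
theorem master (hC : Computes C) (B : Finset (Fin C.nodes)) {s : ℕ} (hs : s ≤ m) :
    m ^ 2 * s * (m * (m - 1)) ≤ 2 * C.nonscalarCount * (m * (m - 1)) +
      s * B.card * (m * (m - 1)) + s * (s * (s - 1)) * ∑ v ∈ Bᶜ, crossPairs C v := by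
  classical
  let E : Fin C.nodes → Finset (Fin m × Fin m) := fun v =>
    univ.filter fun x => x.1 ≠ x.2 ∧ ∃ i j, Cancels C v (mon i x.1 x.2 j)
  have hEc : ∀ v, (E v).card = crossPairs C v := by
    intro v
    unfold crossPairs
    rw [Nat.card_eq_fintype_card, Fintype.card_subtype]
  obtain ⟨K, hK, h1⟩ := avg hs Bᶜ E fun v x hx => (mem_filter.1 hx).2.1
  set L := Bᶜ.filter fun v => ∃ x ∈ E v, x.1 ∈ K ∧ x.2 ∈ K with hL
  have h2 := pairs_main hC (B ∪ L) K fun k hk k' hk' hne w hw i j hc => by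
    rw [mem_union, not_or] at hw
    refine hw.2 ?_
    rw [hL, mem_filter, mem_compl]
    exact ⟨hw.1, (k, k'), mem_filter.2 ⟨mem_univ _, hne, i, j, hc⟩, hk, hk'⟩
  rw [hK] at h2
  have h3 : (B ∪ L).card ≤ B.card + L.card := card_union_le _ _
  simp only [hEc] at h1
  have h4 : s * (B ∪ L).card ≤ s * B.card + s * L.card := by
    rw [← mul_add]
    exact Nat.mul_le_mul_left _ h3
  calc m ^ 2 * s * (m * (m - 1)) ≤ (2 * C.nonscalarCount + s * (B ∪ L).card) * (m * (m - 1)) :=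
        Nat.mul_le_mul_right _ h2
    _ ≤ (2 * C.nonscalarCount + (s * B.card + s * L.card)) * (m * (m - 1)) :=
        Nat.mul_le_mul_right _ (Nat.add_le_add_left h4 _)
    _ = 2 * C.nonscalarCount * (m * (m - 1)) + s * B.card * (m * (m - 1)) +
        s * (L.card * (m * (m - 1))) := by ring
    _ ≤ 2 * C.nonscalarCount * (m * (m - 1)) + s * B.card * (m * (m - 1)) +
        s * (s * (s - 1) * ∑ v ∈ Bᶜ, crossPairs C v) :=
        Nat.add_le_add_left (Nat.mul_le_mul_left _ h1) _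
    _ = _ := by ring

/-- nodes which are not gates do not cancel -/
theorem crossPairs_eq_zero {v : Fin C.nodes}
    (h : ¬ ((∃ i j, C.gate v = Gate.add i j) ∨ ∃ i j, C.gate v = Gate.mul i j)) :
    crossPairs C v = 0 := by
  classical
  unfold crossPairs
  rw [Nat.card_eq_fintype_card, Fintype.card_subtype, card_eq_zero, filter_eq_empty_iff]
  rintro x _ ⟨_, i, j, hc⟩
  exact h hc.isGate

theorem sum_crossPairs_le (B : Finset (Fin C.nodes)) {t : ℕ}
    (h : ∀ v, v ∉ B → crossPairs C v ≤ t) : ∑ v ∈ Bᶜ, crossPairs C v ≤ t * C.size := by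
  classical
  set Q : Finset (Fin C.nodes) := univ.filter fun v => (∃ i j, C.gate v = Gate.add i j) ∨
    ∃ i j, C.gate v = Gate.mul i j with hQ
  have hsize : C.size = Q.card := by
    rw [Circuit.size, Nat.card_eq_fintype_card, Fintype.card_subtype]
  have h1 : ∑ v ∈ Bᶜ, crossPairs C v = ∑ v ∈ Bᶜ.filter fun v => v ∈ Q, crossPairs C v := by
    rw [sum_filter]
    refine sum_congr rfl fun v _ => ?_
    split_ifs with hv
    · rfl
    · refine crossPairs_eq_zero fun h' => hv ?_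
      exact mem_filter.2 ⟨mem_univ _, h'⟩
  rw [h1]
  refine (sum_le_card_nsmul _ _ t fun v hv => h v ?_).trans ?_
  · exact mem_compl.1 (mem_filter.1 hv).1
  · rw [smul_eq_mul, mul_comm, hsize]
    refine Nat.mul_le_mul_left _ (card_le_card fun v hv => (mem_filter.1 hv).2)

theorem sq_le_two_mul (hC : Computes C) (hm : 0 < m) : m ^ 2 ≤ 2 * C.nonscalarCount := by
  classical
  have h1 := pairs_main hC ∅ {(⟨0, hm⟩ : Fin m)} fun k hk k' hk' hne => by
    rw [mem_singleton] at hk hk'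
    exact absurd (hk.trans hk'.symm) hne
  rw [card_singleton, mul_one, one_mul, card_empty, add_zero] at h1
  exact h1

/-- the choice of the size of the set of inner indices -/
theorem choice (hC : Computes C) (hm : 2 ≤ m) {q : ℕ} (hq : 1 ≤ q)
    (hN : 4 * q * C.nonscalarCount ≤ m ^ 3) : ∃ s, s ≤ m ∧ 1 ≤ s ∧
      2 * q * C.nonscalarCount ≤ m ^ 2 * s ∧
      (s * (s - 1)) * m ^ 4 ≤ 8 * q ^ 2 * C.nonscalarCount ^ 2 := by
  set N := C.nonscalarCount with hNd
  have h0 : m ^ 2 ≤ 2 * N := sq_le_two_mul hC (by omega)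
  have hm2 : 0 < m ^ 2 := by positivity
  set r := 2 * q * N / m ^ 2 with hr
  have h1 : r * m ^ 2 ≤ 2 * q * N := Nat.div_mul_le_self _ _
  have h2 : 2 * q * N < (r + 1) * m ^ 2 := by
    have := Nat.lt_mul_div_succ (2 * q * N) hm2
    calc 2 * q * N < m ^ 2 * (2 * q * N / m ^ 2 + 1) := this
      _ = _ := by rw [hr]; ring
  refine ⟨r + 1, ?_, Nat.le_add_left 1 r, ?_, ?_⟩
  · have h3 : 2 * r * m ^ 2 ≤ m * m ^ 2 := by
      calc 2 * r * m ^ 2 = 2 * (r * m ^ 2) := by ring
        _ ≤ 2 * (2 * q * N) := Nat.mul_le_mul_left _ h1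
        _ = 4 * q * N := by ring
        _ ≤ m ^ 3 := hN
        _ = _ := by ring
    have h4 := Nat.le_of_mul_le_mul_right h3 hm2
    omega
  · rw [mul_comm (m ^ 2)]
    exact h2.le
  · rw [Nat.add_sub_cancel]
    have h3 : (r + 1) * m ^ 2 ≤ 4 * q * N := by
      have h4 : 2 * N ≤ 2 * q * N := by
        calc 2 * N = 2 * 1 * N := by ring
          _ ≤ 2 * q * N := Nat.mul_le_mul_right _ (Nat.mul_le_mul_left _ hq)
      calc (r + 1) * m ^ 2 = r * m ^ 2 + m ^ 2 := by ring
        _ ≤ 2 * q * N + 2 * N := Nat.add_le_add h1 h0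
        _ ≤ 2 * q * N + 2 * q * N := Nat.add_le_add_left h4 _
        _ = _ := by ring
    calc (r + 1) * r * m ^ 4 = ((r + 1) * m ^ 2) * (r * m ^ 2) := by ring
      _ ≤ (4 * q * N) * (2 * q * N) := Nat.mul_le_mul h3 h1
      _ = _ := by ring

theorem half_le (hm : 2 ≤ m) : m ^ 2 ≤ 2 * (m * (m - 1)) := by
  obtain ⟨k, rfl⟩ : ∃ k, m = k + 2 := ⟨m - 2, by omega⟩
  rw [show k + 2 - 1 = k + 1 by omega]
  nlinarith

/-- **almost `m²` gates with many cancellations** -/
theorem heavyPairs_bound (hC : Computes C) (q t : ℕ) (h1 : 4 * q * C.size ≤ m ^ 3)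
    (h2 : 16 * q ^ 3 * t * C.size ^ 3 ≤ m ^ 8) :
    q * m ^ 2 ≤ q * heavyPairs C t + 2 * m ^ 2 := by
  classical
  have hNS : C.nonscalarCount ≤ C.size := C.nonscalarCount_le_mulCount.trans C.mulCount_le_size
  rcases Nat.eq_zero_or_pos q with rfl | hq
  · rw [zero_mul]
    exact Nat.zero_le _
  rcases Nat.eq_zero_or_pos m with rfl | hm0
  · simp
  have h0 : m ^ 2 ≤ 2 * C.nonscalarCount := sq_le_two_mul hC hm0
  have hm : 2 ≤ m := by
    by_contra hcon
    obtain rfl : m = 1 := by omega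
    have h3 : 4 * 1 * C.size ≤ 4 * q * C.size :=
      Nat.mul_le_mul_right _ (Nat.mul_le_mul_left _ hq)
    omega
  set N := C.nonscalarCount with hN
  set S := C.size with hS
  obtain ⟨s, hsm, hs1, h3, h4⟩ := choice hC hm hq
    ((Nat.mul_le_mul_left (4 * q) hNS).trans h1)
  rw [← hN] at h3 h4
  set B : Finset (Fin C.nodes) := univ.filter fun v => t < crossPairs C v with hB
  have hBc : B.card = heavyPairs C t := by
    unfold heavyPairs
    rw [Nat.card_eq_fintype_card, Fintype.card_subtype]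
  have h5 := master hC B hsm
  have h6 : ∑ v ∈ Bᶜ, crossPairs C v ≤ t * S := by
    refine sum_crossPairs_le B fun v hv => ?_
    by_contra h
    exact hv (mem_filter.2 ⟨mem_univ _, not_le.1 h⟩)
  rw [hBc, ← hN] at h5
  set h := heavyPairs C t with hh
  set X := m * (m - 1) with hX
  have hX2 : m ^ 2 ≤ 2 * X := half_le hm
  have hX0 : 0 < X := by
    have : 0 < m ^ 2 := by positivity
    omega
  -- the error term
  have h7 : 2 * (q * (s * (s - 1) * (t * S))) ≤ m ^ 4 := by
    refine Nat.le_of_mul_le_mul_right (c := m ^ 4) ?_ (by positivity)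
    calc 2 * (q * (s * (s - 1) * (t * S))) * m ^ 4
        = 2 * q * (t * S) * ((s * (s - 1)) * m ^ 4) := by ring
      _ ≤ 2 * q * (t * S) * (8 * q ^ 2 * N ^ 2) := Nat.mul_le_mul_left _ h4
      _ ≤ 2 * q * (t * S) * (8 * q ^ 2 * S ^ 2) :=
          Nat.mul_le_mul_left _ (Nat.mul_le_mul_left _ (Nat.pow_le_pow_left hNS 2))
      _ = 16 * q ^ 3 * t * S ^ 3 := by ring
      _ ≤ m ^ 8 := h2
      _ = _ := by ring
  have h8 : q * (s * (s - 1) * (t * S)) ≤ m ^ 2 * X := by
    have h9 : m ^ 4 ≤ 2 * (m ^ 2 * X) := by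
      calc m ^ 4 = m ^ 2 * m ^ 2 := by ring
        _ ≤ m ^ 2 * (2 * X) := Nat.mul_le_mul_left _ hX2
        _ = _ := by ring
    omega
  have h9 : q * m ^ 2 * (s * X) ≤ (q * h + 2 * m ^ 2) * (s * X) := by
    calc q * m ^ 2 * (s * X) = q * (m ^ 2 * s * X) := by ring
      _ ≤ q * (2 * N * X + s * h * X + s * (s * (s - 1)) * ∑ v ∈ Bᶜ, crossPairs C v) :=
          Nat.mul_le_mul_left _ h5
      _ ≤ q * (2 * N * X + s * h * X + s * (s * (s - 1)) * (t * S)) :=
          Nat.mul_le_mul_left _ (Nat.add_le_add_left (Nat.mul_le_mul_left _ h6) _)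
      _ = 2 * q * N * X + q * h * (s * X) + s * (q * (s * (s - 1) * (t * S))) := by ring
      _ ≤ m ^ 2 * s * X + q * h * (s * X) + s * (m ^ 2 * X) :=
          Nat.add_le_add (Nat.add_le_add_right (Nat.mul_le_mul_right _ h3) _)
            (Nat.mul_le_mul_left _ h8)
      _ = _ := by ring
  exact Nat.le_of_mul_le_mul_right h9 (Nat.mul_pos hs1 hX0)

/-- **few cancellations at every gate** -/
theorem size_bound (hC : Computes C) {t : ℕ} (ht : 1 ≤ t) (h : ∀ v, crossPairs C v ≤ t) :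
    m ^ 8 ≤ t * (12 * C.size) ^ 3 := by
  classical
  rcases Nat.eq_zero_or_pos m with rfl | hm0
  · simp
  have hheavy : heavyPairs C t = 0 := by
    unfold heavyPairs
    rw [Nat.card_eq_fintype_card, Fintype.card_subtype, card_eq_zero, filter_eq_empty_iff]
    intro v _
    exact not_lt.2 (h v)
  by_contra hcon
  rw [not_le] at hcon
  rcases le_or_gt (12 * C.size) (m ^ 3) with h1 | h1
  · have h2 := heavyPairs_bound hC 3 t (by omega) (by
      calc 16 * 3 ^ 3 * t * C.size ^ 3 = 432 * (t * C.size ^ 3) := by ring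
        _ ≤ 1728 * (t * C.size ^ 3) := Nat.mul_le_mul_right _ (by norm_num)
        _ = t * (12 * C.size) ^ 3 := by ring
        _ ≤ m ^ 8 := hcon.le)
    rw [hheavy, mul_zero, zero_add] at h2
    have h3 : 0 < m ^ 2 := by positivity
    omega
  · have h2 : m ^ 8 ≤ t * (12 * C.size) ^ 3 := by
      calc m ^ 8 ≤ m ^ 9 := Nat.pow_le_pow_right hm0 (by norm_num)
        _ = 1 * (m ^ 3) ^ 3 := by ring
        _ ≤ t * (12 * C.size) ^ 3 := Nat.mul_le_mul ht (Nat.pow_le_pow_left h1.le 3)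
    omega

/-- **the total number of cancellations** -/
theorem total_bound (hC : Computes C) (hN : 8 * C.nonscalarCount ≤ m ^ 3) :
    m ^ 8 ≤ 128 * C.nonscalarCount ^ 2 * ∑ v, crossPairs C v := by
  classical
  rcases Nat.eq_zero_or_pos m with rfl | hm0
  · simp
  have h0 : m ^ 2 ≤ 2 * C.nonscalarCount := sq_le_two_mul hC hm0
  have hm : 2 ≤ m := by
    by_contra hcon
    obtain rfl : m = 1 := by omega
    omega
  obtain ⟨s, hsm, hs1, h3, h4⟩ := choice hC hm (q := 2) (by norm_num) (by omega)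
  have h5 := master hC ∅ hsm
  rw [card_empty, mul_zero, zero_mul, add_zero, compl_empty] at h5
  set N := C.nonscalarCount with hNd
  set T := ∑ v, crossPairs C v with hT
  set X := m * (m - 1) with hX
  have hX2 : m ^ 2 ≤ 2 * X := half_le hm
  have h6 : m ^ 2 * s * X ≤ 2 * (s * (s * (s - 1)) * T) := by
    have h7 : 2 * (2 * N * X) ≤ m ^ 2 * s * X := by
      calc 2 * (2 * N * X) = 2 * 2 * N * X := by ring
        _ ≤ _ := Nat.mul_le_mul_right _ h3
    omega
  have h7 : m ^ 2 * X ≤ 2 * (s * (s - 1) * T) := by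
    refine Nat.le_of_mul_le_mul_left (c := s) ?_ (by omega)
    calc s * (m ^ 2 * X) = m ^ 2 * s * X := by ring
      _ ≤ 2 * (s * (s * (s - 1)) * T) := h6
      _ = _ := by ring
  calc m ^ 8 = m ^ 6 * m ^ 2 := by ring
    _ ≤ m ^ 6 * (2 * X) := Nat.mul_le_mul_left _ hX2
    _ = 2 * m ^ 4 * (m ^ 2 * X) := by ring
    _ ≤ 2 * m ^ 4 * (2 * (s * (s - 1) * T)) := Nat.mul_le_mul_left _ h7
    _ = 4 * T * ((s * (s - 1)) * m ^ 4) := by ring
    _ ≤ 4 * T * (8 * 2 ^ 2 * N ^ 2) := Nat.mul_le_mul_left _ h4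
    _ = _ := by ring

end mm

end Pool.Agent.K9h26.CN
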