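import Pool.Agent.H522R2.Circuit
import Pool.Agent.H88R3.MM.Circ

set_option autoImplicit false

/-!
# Cancellations in arithmetic circuits: definitions
-/

namespace Pool.Agent.K9h26.CN

open Pool.Agent.H88R3.MM Pool.Agent.H522R2 Pool.Agent.H522R2.Circuit

/-- the circuit has the entries of the product of two generic `m × m` matrices among the
polynomials which it computes -/
def Computes {F : Type*} [Field F] {m : ℕ} (C : Circuit F (Vars m)) : Prop :=
  ∀ i j, ∃ k : Fin C.nodes, C.poly k = entry F m i j

/-- The monomial `d` is cancelled at the gate `v`: it does not occur in the polynomial computed by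
`v`, but it occurs in one of the two inputs if `v` is an addition, and it is the product of a
monomial of the first and a monomial of the second input if `v` is a multiplication. -/
def Cancels {F V : Type*} [Field F] (C : Circuit F V) (v : Fin C.nodes) (d : V →₀ ℕ) : Prop :=
  (C.poly v).coeff d = 0 ∧
    ((∃ i j, C.gate v = Gate.add i j ∧
        ((C.poly (C.up v i)).coeff d ≠ 0 ∨ (C.poly (C.up v j)).coeff d ≠ 0)) ∨
      ∃ i j, C.gate v = Gate.mul i j ∧ ∃ d₁ d₂ : V →₀ ℕ, d₁ + d₂ = d ∧
        (C.poly (C.up v i)).coeff d₁ ≠ 0 ∧ (C.poly (C.up v j)).coeff d₂ ≠ 0)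

/-- the monomial `a i k * b k' j` in the entries of the two matrices -/
noncomputable def mon {m : ℕ} (i k k' j : Fin m) : Vars m →₀ ℕ :=
  Finsupp.single (Sum.inl (i, k)) 1 + Finsupp.single (Sum.inr (k', j)) 1

/-- the number of the monomials `a i k * b k' j` which are cancelled at a gate outside `B` -/
noncomputable def cancelled {F : Type*} [Field F] {m : ℕ} (C : Circuit F (Vars m))
    (B : Finset (Fin C.nodes)) : ℕ :=
  Nat.card {x : Fin m × Fin m × Fin m × Fin m //
    ∃ v, v ∉ B ∧ Cancels C v (mon x.1 x.2.1 x.2.2.1 x.2.2.2)}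

/-- the number of the monomials `a i k * b k' j` which are cancelled at `v` -/
noncomputable def cancelledAt {F : Type*} [Field F] {m : ℕ} (C : Circuit F (Vars m))
    (v : Fin C.nodes) : ℕ :=
  Nat.card {x : Fin m × Fin m × Fin m × Fin m // Cancels C v (mon x.1 x.2.1 x.2.2.1 x.2.2.2)}

/-- the number of the gates at which more than `t` of the monomials `a i k * b k' j` are
cancelled -/
noncomputable def heavy {F : Type*} [Field F] {m : ℕ} (C : Circuit F (Vars m)) (t : ℕ) : ℕ :=
  Nat.card {v : Fin C.nodes // t < cancelledAt C v}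

end Pool.Agent.K9h26.CN
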