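import Pool.Agent.K9h26.CN.Defs
import Pool.Agent.W946.SzGates

set_option autoImplicit false

/-!
# Fast matrix multiplication needs many cancellations
-/

namespace Pool.Agent.K9h26.CN

open Finset Pool.Agent.H88R3.MM Pool.Agent.H522R2 Pool.Agent.H522R2.Circuit
open Pool.Agent.W946.Sz (poly_var poly_const poly_add poly_mul up_lt mono exists_mono)

section general

variable {F V : Type*} [Field F]

/-- the nodes which contribute to `o` through sums and products with a factor which has a constant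
term, without passing through `B` -/
inductive Rch (C : Circuit F V) (B : Finset (Fin C.nodes)) (o : Fin C.nodes) :
    Fin C.nodes → Prop
  | base : Rch C B o o
  | addl {v : Fin C.nodes} {i j : Fin (v : ℕ)} : Rch C B o v → v ∉ B →
      C.gate v = Gate.add i j → Rch C B o (C.up v i)
  | addr {v : Fin C.nodes} {i j : Fin (v : ℕ)} : Rch C B o v → v ∉ B →
      C.gate v = Gate.add i j → Rch C B o (C.up v j)
  | mull {v : Fin C.nodes} {i j : Fin (v : ℕ)} : Rch C B o v → v ∉ B →
      C.gate v = Gate.mul i j → (C.poly (C.up v j)).coeff 0 ≠ 0 → Rch C B o (C.up v i)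
  | mulr {v : Fin C.nodes} {i j : Fin (v : ℕ)} : Rch C B o v → v ∉ B →
      C.gate v = Gate.mul i j → (C.poly (C.up v i)).coeff 0 ≠ 0 → Rch C B o (C.up v j)

theorem Rch.persist {C : Circuit F V} {B : Finset (Fin C.nodes)} {o v : Fin C.nodes}
    (h : Rch C B o v) {d : V →₀ ℕ} (hd : ∀ w, w ∉ B → ¬ Cancels C w d)
    (hv : (C.poly v).coeff d ≠ 0) : (C.poly o).coeff d ≠ 0 := by
  induction h with
  | base => exact hv
  | @addl v i j _ hB hg ih =>
    refine ih fun h0 => hd v hB ⟨h0, Or.inl ⟨i, j, hg, Or.inl hv⟩⟩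
  | @addr v i j _ hB hg ih =>
    refine ih fun h0 => hd v hB ⟨h0, Or.inl ⟨i, j, hg, Or.inr hv⟩⟩
  | @mull v i j _ hB hg hc ih =>
    refine ih fun h0 => hd v hB ⟨h0, Or.inr ⟨i, j, hg, d, 0, add_zero d, hv, hc⟩⟩
  | @mulr v i j _ hB hg hc ih =>
    refine ih fun h0 => hd v hB ⟨h0, Or.inr ⟨i, j, hg, 0, d, zero_add d, hc, hv⟩⟩

/-- splitting a product of two different variables -/
theorem split_two {a b : V} (hab : a ≠ b) {d₁ d₂ : V →₀ ℕ}
    (h : d₁ + d₂ = Finsupp.single a 1 + Finsupp.single b 1) (h₁ : d₁ ≠ 0) (h₂ : d₂ ≠ 0) :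
    (d₁ = Finsupp.single a 1 ∧ d₂ = Finsupp.single b 1) ∨
      (d₁ = Finsupp.single b 1 ∧ d₂ = Finsupp.single a 1) := by
  classical
  have key : ∀ x, d₁ x + d₂ x = (if a = x then 1 else 0) + if b = x then 1 else 0 := by
    intro x
    have := DFunLike.congr_fun h x
    simpa only [Finsupp.add_apply, Finsupp.single_apply] using this
  obtain ⟨x, hx⟩ := Finsupp.ne_iff.1 h₁
  obtain ⟨y, hy⟩ := Finsupp.ne_iff.1 h₂
  rw [Finsupp.zero_apply] at hx hy
  have ka := key a
  have kb := key b
  rw [if_pos rfl, if_neg hab.symm] at ka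
  rw [if_neg hab, if_pos rfl] at kb
  have hx' : x = a ∨ x = b := by
    by_contra hcon
    rw [not_or] at hcon
    have := key x
    rw [if_neg fun h' => hcon.1 h'.symm, if_neg fun h' => hcon.2 h'.symm] at this
    omega
  have hy' : y = a ∨ y = b := by
    by_contra hcon
    rw [not_or] at hcon
    have := key y
    rw [if_neg fun h' => hcon.1 h'.symm, if_neg fun h' => hcon.2 h'.symm] at this
    omega
  have other : ∀ z, z ≠ a → z ≠ b → d₁ z = 0 ∧ d₂ z = 0 := by
    intro z hza hzb
    have := key z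
    rw [if_neg fun h' => hza h'.symm, if_neg fun h' => hzb h'.symm] at this
    omega
  rcases hx' with rfl | rfl
  · left
    have hyb : y = b := by
      rcases hy' with rfl | rfl
      · omega
      · rfl
    subst hyb
    constructor
    · ext z
      rw [Finsupp.single_apply]
      by_cases hza : x = z
      · subst hza
        rw [if_pos rfl]; omega
      · rw [if_neg hza]
        by_cases hzb : y = z
        · subst hzb; omega
        · exact (other z (fun h' => hza h'.symm) (fun h' => hzb h'.symm)).1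
    · ext z
      rw [Finsupp.single_apply]
      by_cases hzb : y = z
      · subst hzb
        rw [if_pos rfl]; omega
      · rw [if_neg hzb]
        by_cases hza : x = z
        · subst hza; omega
        · exact (other z (fun h' => hza h'.symm) (fun h' => hzb h'.symm)).2
  · right
    have hya : y = a := by
      rcases hy' with rfl | rfl
      · rfl
      · omega
    subst hya
    constructor
    · ext z
      rw [Finsupp.single_apply]
      by_cases hzb : x = z
      · subst hzb
        rw [if_pos rfl]; omega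
      · rw [if_neg hzb]
        by_cases hza : y = z
        · subst hza; omega
        · exact (other z (fun h' => hza h'.symm) (fun h' => hzb h'.symm)).1
    · ext z
      rw [Finsupp.single_apply]
      by_cases hza : y = z
      · subst hza
        rw [if_pos rfl]; omega
      · rw [if_neg hza]
        by_cases hzb : x = z
        · subst hzb; omega
        · exact (other z (fun h' => hza h'.symm) (fun h' => hzb h'.symm)).2

end general

section mm

variable {F : Type*} [Field F] {m : ℕ}

theorem mono_eq (i j k : Fin m) : mono i j k = mon i k k j := rfl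

theorem mon_inj {i k k' j i₁ k₁ k₁' j₁ : Fin m} (h : mon i k k' j = mon i₁ k₁ k₁' j₁) :
    i = i₁ ∧ k = k₁ ∧ k' = k₁' ∧ j = j₁ := by
  classical
  have h1 := DFunLike.congr_fun h (Sum.inl (i, k))
  have h2 := DFunLike.congr_fun h (Sum.inr (k', j))
  simp only [mon, Finsupp.add_apply, Finsupp.single_apply, if_true, reduceCtorEq, if_false,
    add_zero, zero_add, Sum.inl.injEq, Sum.inr.injEq, Prod.mk.injEq] at h1 h2
  have h3 : i₁ = i ∧ k₁ = k := by
    by_contra h'
    rw [if_neg h'] at h1
    exact one_ne_zero h1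
  have h4 : k₁' = k' ∧ j₁ = j := by
    by_contra h'
    rw [if_neg h'] at h2
    exact one_ne_zero h2
  exact ⟨h3.1.symm, h3.2.symm, h4.1.symm, h4.2.symm⟩

theorem coeff_entry_mon {i j i' k k' j' : Fin m}
    (h : (entry F m i j).coeff (mon i' k k' j') ≠ 0) : i' = i ∧ j' = j ∧ k = k' := by
  obtain ⟨l, hl⟩ := exists_mono (MvPolynomial.mem_support_iff.2 h)
  rw [mono_eq] at hl
  obtain ⟨h1, h2, h3, h4⟩ := mon_inj hl
  exact ⟨h1, h4, h2.trans h3.symm⟩

theorem coeff_entry_one (i j k : Fin m) : (entry F m i j).coeff (mon i k k j) = 1 :=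
  Pool.Agent.W946.Sz.coeff_mono i j k

theorem coeff_X_mon (z : Vars m) (i k k' j : Fin m) :
    (MvPolynomial.X z : MvPolynomial (Vars m) F).coeff (mon i k k' j) = 0 := by
  classical
  rw [MvPolynomial.coeff_X']
  refine if_neg fun h => ?_
  have h1 := DFunLike.congr_fun h (Sum.inl (i, k))
  have h2 := DFunLike.congr_fun h (Sum.inr (k', j))
  simp only [mon, Finsupp.add_apply, Finsupp.single_apply, if_true, reduceCtorEq, if_false,
    add_zero, zero_add] at h1 h2
  have h3 : z = Sum.inl (i, k) := by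
    by_contra h'
    rw [if_neg h'] at h1
    exact one_ne_zero h1.symm
  have h4 : z = Sum.inr (k', j) := by
    by_contra h'
    rw [if_neg h'] at h2
    exact one_ne_zero h2.symm
  rw [h3] at h4
  exact Sum.inl_ne_inr h4

theorem coeff_C_mon (c : F) (i k k' j : Fin m) :
    (MvPolynomial.C c : MvPolynomial (Vars m) F).coeff (mon i k k' j) = 0 := by
  classical
  rw [MvPolynomial.coeff_C]
  refine if_neg fun h => ?_
  have h1 := DFunLike.congr_fun h (Sum.inl (i, k))
  simp [mon] at h1

/-- the data -/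
structure Dat (C : Circuit F (Vars m)) where
  B : Finset (Fin C.nodes)
  out : Fin m → Fin m → Fin C.nodes
  hout : ∀ i j, C.poly (out i j) = entry F m i j

variable {C : Circuit F (Vars m)}

open Classical in
/-- the pairs of inner indices whose monomial is cancelled outside `B` -/
noncomputable def Dat.Bad (D : Dat C) (a : Fin m × Fin m) : Finset (Fin m × Fin m) :=
  univ.filter fun x => ∃ v, v ∉ D.B ∧ Cancels C v (mon a.1 x.1 x.2 a.2)

open Classical in
/-- the good inner indices -/
noncomputable def Dat.K (D : Dat C) (a : Fin m × Fin m) : Finset (Fin m) :=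
  univ.filter fun k => ∀ k', (k, k') ∉ D.Bad a

theorem Dat.K_spec (D : Dat C) {a : Fin m × Fin m} {k : Fin m} (hk : k ∈ D.K a) (k' : Fin m)
    (w : Fin C.nodes) (hw : w ∉ D.B) : ¬ Cancels C w (mon a.1 k k' a.2) := by
  classical
  intro h
  unfold Dat.K at hk
  rw [mem_filter] at hk
  refine hk.2 k' ?_
  unfold Dat.Bad
  rw [mem_filter]
  exact ⟨mem_univ _, w, hw, h⟩

theorem Dat.le_K (D : Dat C) (a : Fin m × Fin m) : m ≤ (D.K a).card + (D.Bad a).card := by
  classical
  have h1 : (univ : Finset (Fin m)) ⊆ D.K a ∪ (D.Bad a).image Prod.fst := by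
    intro k _
    rw [mem_union]
    by_cases h : k ∈ D.K a
    · exact Or.inl h
    · right
      unfold Dat.K at h
      rw [mem_filter, not_and] at h
      have h2 := h (mem_univ _)
      push Not at h2
      obtain ⟨k', hk'⟩ := h2
      exact mem_image.2 ⟨(k, k'), hk', rfl⟩
  have h2 := card_le_card h1
  rw [card_univ, Fintype.card_fin] at h2
  refine h2.trans ((card_union_le _ _).trans ?_)
  exact Nat.add_le_add_left card_image_le _

open Classical in
/-- the private nodes of an output -/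
noncomputable def Dat.R (D : Dat C) (a : Fin m × Fin m) : Finset (Fin C.nodes) :=
  univ.filter fun v => Rch C D.B (D.out a.1 a.2) v ∧
    ∃ k ∈ D.K a, (C.poly v).coeff (mon a.1 k k a.2) ≠ 0

theorem Dat.mem_R (D : Dat C) {a : Fin m × Fin m} {v : Fin C.nodes} :
    v ∈ D.R a ↔ Rch C D.B (D.out a.1 a.2) v ∧
      ∃ k ∈ D.K a, (C.poly v).coeff (mon a.1 k k a.2) ≠ 0 := by
  classical
  unfold Dat.R
  rw [mem_filter]
  exact ⟨fun h => h.2, fun h => ⟨mem_univ _, h⟩⟩

/-- monomials which are not cancelled occur only below their own output -/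
theorem Dat.pure (D : Dat C) {a a' : Fin m × Fin m} {v : Fin C.nodes}
    (hv : Rch C D.B (D.out a.1 a.2) v) {k k' : Fin m} (hk : k ∈ D.K a')
    (h : (C.poly v).coeff (mon a'.1 k k' a'.2) ≠ 0) : a' = a ∧ k = k' := by
  have h1 := hv.persist (fun w hw => D.K_spec hk k' w hw) h
  rw [D.hout] at h1
  obtain ⟨h2, h3, h4⟩ := coeff_entry_mon h1
  exact ⟨Prod.ext h2 h3, h4⟩

theorem Dat.disjoint (D : Dat C) {a a' : Fin m × Fin m} (h : a ≠ a') :
    Disjoint (D.R a) (D.R a') := by
  rw [Finset.disjoint_left]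
  intro v hv hv'
  obtain ⟨h1, _⟩ := D.mem_R.1 hv
  obtain ⟨_, k, hk, hc⟩ := D.mem_R.1 hv'
  exact h (D.pure h1 hk hc).1.symm

/-- where a monomial is born -/
theorem Dat.born (D : Dat C) {a : Fin m × Fin m} (hB : Disjoint (D.R a) D.B) {k : Fin m}
    (hk : k ∈ D.K a) : ∃ (v : Fin C.nodes) (s : Bool), v ∈ D.R a ∧ ∃ i j,
      C.gate v = Gate.mul i j ∧
      if s then (C.poly (C.up v i)).coeff (Finsupp.single (Sum.inl (a.1, k)) 1) ≠ 0 ∧
        (C.poly (C.up v j)).coeff (Finsupp.single (Sum.inr (k, a.2)) 1) ≠ 0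
      else (C.poly (C.up v i)).coeff (Finsupp.single (Sum.inr (k, a.2)) 1) ≠ 0 ∧
        (C.poly (C.up v j)).coeff (Finsupp.single (Sum.inl (a.1, k)) 1) ≠ 0 := by
  classical
  have key : ∀ v : Fin C.nodes, Rch C D.B (D.out a.1 a.2) v →
      (C.poly v).coeff (mon a.1 k k a.2) ≠ 0 → ∃ (v : Fin C.nodes) (s : Bool), v ∈ D.R a ∧
      ∃ i j, C.gate v = Gate.mul i j ∧
      if s then (C.poly (C.up v i)).coeff (Finsupp.single (Sum.inl (a.1, k)) 1) ≠ 0 ∧
        (C.poly (C.up v j)).coeff (Finsupp.single (Sum.inr (k, a.2)) 1) ≠ 0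
      else (C.poly (C.up v i)).coeff (Finsupp.single (Sum.inr (k, a.2)) 1) ≠ 0 ∧
        (C.poly (C.up v j)).coeff (Finsupp.single (Sum.inl (a.1, k)) 1) ≠ 0 := by
    intro v
    induction v using WellFoundedLT.induction with
    | _ v ih =>
    intro hr hc
    have hvR : v ∈ D.R a := D.mem_R.2 ⟨hr, k, hk, hc⟩
    have hvB : v ∉ D.B := Finset.disjoint_left.1 hB hvR
    cases hg : C.gate v with
    | var z =>
      rw [poly_var hg, coeff_X_mon] at hc
      exact absurd rfl hc
    | const c =>
      rw [poly_const hg, coeff_C_mon] at hc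
      exact absurd rfl hc
    | add i j =>
      rw [poly_add hg, MvPolynomial.coeff_add] at hc
      by_cases h1 : (C.poly (C.up v i)).coeff (mon a.1 k k a.2) = 0
      · rw [h1, zero_add] at hc
        exact ih _ (up_lt v j) (hr.addr hvB hg) hc
      · exact ih _ (up_lt v i) (hr.addl hvB hg) h1
    | mul i j =>
      have hc' := hc
      rw [poly_mul hg, MvPolynomial.coeff_mul] at hc
      obtain ⟨⟨d₁, d₂⟩, hd, hne⟩ := exists_ne_zero_of_sum_ne_zero hc
      rw [Finset.HasAntidiagonal.mem_antidiagonal] at hd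
      have hf := left_ne_zero_of_mul hne
      have hh := right_ne_zero_of_mul hne
      simp only at hd hf hh
      by_cases h₁ : d₁ = 0
      · rw [h₁] at hd hf
        rw [zero_add] at hd
        rw [hd] at hh
        exact ih _ (up_lt v j) (hr.mulr hvB hg hf) hh
      by_cases h₂ : d₂ = 0
      · rw [h₂] at hd hh
        rw [add_zero] at hd
        rw [hd] at hf
        exact ih _ (up_lt v i) (hr.mull hvB hg hh) hf
      rcases split_two (Sum.inl_ne_inr) hd h₁ h₂ with ⟨e₁, e₂⟩ | ⟨e₁, e₂⟩
      · rw [e₁] at hf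
        rw [e₂] at hh
        exact ⟨v, true, hvR, i, j, hg, by rw [if_pos rfl]; exact ⟨hf, hh⟩⟩
      · rw [e₁] at hf
        rw [e₂] at hh
        exact ⟨v, false, hvR, i, j, hg, by rw [if_neg (by simp)]; exact ⟨hf, hh⟩⟩
  refine key (D.out a.1 a.2) .base ?_
  rw [D.hout, coeff_entry_one]
  exact one_ne_zero

theorem single_ne_C {V : Type*} (f : MvPolynomial V F) (x : V)
    (h : f.coeff (Finsupp.single x 1) ≠ 0) (c : F) : f ≠ MvPolynomial.C c := by
  classical
  rintro rfl
  rw [MvPolynomial.coeff_C] at h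
  refine h (if_neg fun h' => ?_)
  have := DFunLike.congr_fun h' x
  simp at this

open Classical in
/-- the private products of an output -/
noncomputable def Dat.NS (D : Dat C) (a : Fin m × Fin m) : Finset (Fin C.nodes) :=
  (D.R a).filter fun v => C.IsNonscalar v

theorem Dat.K_le (D : Dat C) {a : Fin m × Fin m} (hB : Disjoint (D.R a) D.B) :
    (D.K a).card ≤ 2 * (D.NS a).card := by
  classical
  have h1 : ∀ k : Fin m, ∃ (v : Fin C.nodes) (s : Bool), k ∈ D.K a → v ∈ D.R a ∧ ∃ i j,
      C.gate v = Gate.mul i j ∧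
      if s then (C.poly (C.up v i)).coeff (Finsupp.single (Sum.inl (a.1, k)) 1) ≠ 0 ∧
        (C.poly (C.up v j)).coeff (Finsupp.single (Sum.inr (k, a.2)) 1) ≠ 0
      else (C.poly (C.up v i)).coeff (Finsupp.single (Sum.inr (k, a.2)) 1) ≠ 0 ∧
        (C.poly (C.up v j)).coeff (Finsupp.single (Sum.inl (a.1, k)) 1) ≠ 0 := by
    intro k
    by_cases hk : k ∈ D.K a
    · obtain ⟨v, s, h⟩ := D.born hB hk
      exact ⟨v, s, fun _ => h⟩
    · exact ⟨D.out a.1 a.2, true, fun h => absurd h hk⟩
  choose v s hvs using h1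
  have h2 : ((D.NS a) ×ˢ (univ : Finset Bool)).card = 2 * (D.NS a).card := by
    rw [card_product, card_univ, Fintype.card_bool, mul_comm]
  rw [← h2]
  refine card_le_card_of_injOn (fun k => (v k, s k)) (fun k hk => ?_) ?_
  · rw [mem_coe] at hk
    obtain ⟨h3, i, j, hg, h4⟩ := hvs k hk
    rw [mem_coe, mem_product]
    refine ⟨mem_filter.2 ⟨h3, i, j, hg, ?_⟩, mem_univ _⟩
    split_ifs at h4 with hs
    · exact ⟨single_ne_C _ _ h4.1, single_ne_C _ _ h4.2⟩
    · exact ⟨single_ne_C _ _ h4.1, single_ne_C _ _ h4.2⟩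
  · intro k hk k' hk' he
    rw [mem_coe] at hk hk'
    simp only [Prod.mk.injEq] at he
    obtain ⟨h3, i, j, hg, h4⟩ := hvs k hk
    obtain ⟨_, i', j', hg', h4'⟩ := hvs k' hk'
    have hR := D.mem_R.1 h3
    have hvB : v k ∉ D.B := Finset.disjoint_left.1 hB h3
    -- transport to the node `v k`
    have h5 : ∃ i' j', C.gate (v k) = Gate.mul i' j' ∧
        if s k then (C.poly (C.up (v k) i')).coeff (Finsupp.single (Sum.inl (a.1, k')) 1) ≠ 0 ∧
          (C.poly (C.up (v k) j')).coeff (Finsupp.single (Sum.inr (k', a.2)) 1) ≠ 0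
        else (C.poly (C.up (v k) i')).coeff (Finsupp.single (Sum.inr (k', a.2)) 1) ≠ 0 ∧
          (C.poly (C.up (v k) j')).coeff (Finsupp.single (Sum.inl (a.1, k')) 1) ≠ 0 := by
      rw [he.1, he.2]
      exact ⟨i', j', hg', h4'⟩
    obtain ⟨i', j', hg', h4'⟩ := h5
    rw [hg, Gate.mul.injEq] at hg'
    obtain ⟨rfl, rfl⟩ := hg'
    split_ifs at h4 h4' with hs
    · have h6 : (C.poly (v k)).coeff (mon a.1 k k' a.2) ≠ 0 := by
        intro h0
        exact D.K_spec hk k' (v k) hvB ⟨h0, Or.inr ⟨i, j, hg, _, _, rfl, h4.1, h4'.2⟩⟩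
      exact (D.pure hR.1 hk h6).2
    · have h6 : (C.poly (v k)).coeff (mon a.1 k k' a.2) ≠ 0 := by
        intro h0
        exact D.K_spec hk k' (v k) hvB ⟨h0, Or.inr ⟨i, j, hg, _, _, add_comm _ _, h4'.1, h4.2⟩⟩
      exact (D.pure hR.1 hk h6).2

theorem Dat.sum_bad (D : Dat C) : ∑ a, (D.Bad a).card = cancelled C D.B := by
  classical
  unfold Dat.Bad cancelled
  rw [Nat.card_eq_fintype_card, Fintype.card_subtype]
  simp only [card_filter]
  rw [Fintype.sum_prod_type, Fintype.sum_prod_type]
  refine sum_congr rfl fun i _ => ?_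
  rw [Fintype.sum_prod_type]
  have h1 : ∀ j : Fin m, (∑ x : Fin m × Fin m, if ∃ v, v ∉ D.B ∧ Cancels C v (mon i x.1 x.2 j)
      then 1 else 0) = ∑ k, ∑ k', if ∃ v, v ∉ D.B ∧ Cancels C v (mon i k k' j) then 1 else 0 :=
    fun j => Fintype.sum_prod_type _
  rw [sum_congr rfl fun j _ => h1 j, sum_comm]
  refine sum_congr rfl fun k _ => ?_
  rw [Fintype.sum_prod_type, sum_comm]

/-- **Many cancellations** -/
theorem Dat.main (D : Dat C) :
    m ^ 3 ≤ 2 * C.nonscalarCount + cancelled C D.B + m * D.B.card := by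
  classical
  set G : Finset (Fin m × Fin m) := univ.filter fun a => Disjoint (D.R a) D.B with hG
  set G' : Finset (Fin m × Fin m) := univ.filter fun a => ¬ Disjoint (D.R a) D.B with hG'
  -- the outputs whose private nodes meet `B`
  have h1 : G'.card ≤ D.B.card := by
    have h2 : ∀ a : Fin m × Fin m, ∃ v : Fin C.nodes, a ∈ G' → v ∈ D.R a ∧ v ∈ D.B := by
      intro a
      by_cases ha : a ∈ G'
      · rw [hG', mem_filter, Finset.not_disjoint_iff] at ha
        obtain ⟨_, v, hv⟩ := ha
        exact ⟨v, fun _ => hv⟩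
      · exact ⟨D.out a.1 a.2, fun h => absurd h ha⟩
    choose v hv using h2
    refine card_le_card_of_injOn v (fun a ha => (hv a ha).2) fun a ha a' ha' he => ?_
    by_contra hne
    have h3 := (hv a ha).1
    have h4 := (hv a' ha').1
    rw [← he] at h4
    exact Finset.disjoint_left.1 (D.disjoint hne) h3 h4
  -- the other outputs
  have h2 : ∑ a ∈ G, (D.K a).card ≤ 2 * C.nonscalarCount := by
    have h3 : ∑ a ∈ G, (D.K a).card ≤ ∑ a ∈ G, 2 * (D.NS a).card :=
      sum_le_sum fun a ha => D.K_le (mem_filter.1 ha).2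
    refine h3.trans ?_
    rw [← mul_sum]
    refine Nat.mul_le_mul_left _ ?_
    rw [← card_biUnion, Circuit.nonscalarCount, Nat.card_eq_fintype_card, Fintype.card_subtype]
    · refine card_le_card fun v hv => ?_
      obtain ⟨a, _, h⟩ := mem_biUnion.1 hv
      exact mem_filter.2 ⟨mem_univ _, (mem_filter.1 h).2⟩
    · intro a _ a' _ hne
      exact (D.disjoint hne).mono (filter_subset _ _) (filter_subset _ _)
  have h3 : m ^ 3 = ∑ a ∈ G, m + ∑ a ∈ G', m := by
    rw [hG, hG', sum_filter_add_sum_filter_not, sum_const, card_univ, Fintype.card_prod,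
      Fintype.card_fin, smul_eq_mul]
    ring
  have h4 : ∑ a ∈ G, m ≤ ∑ a ∈ G, ((D.K a).card + (D.Bad a).card) :=
    sum_le_sum fun a _ => D.le_K a
  have h5 : ∑ a ∈ G, (D.Bad a).card ≤ cancelled C D.B := by
    rw [← D.sum_bad]
    exact sum_le_sum_of_subset (filter_subset _ _)
  rw [sum_add_distrib] at h4
  have h6 : ∑ a ∈ G', m ≤ m * D.B.card := by
    rw [sum_const, smul_eq_mul, mul_comm]
    exact Nat.mul_le_mul_left _ h1
  omega

theorem main (hC : Computes C) (B : Finset (Fin C.nodes)) :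
    m ^ 3 ≤ 2 * C.nonscalarCount + cancelled C B + m * B.card := by
  choose out hout using hC
  exact (⟨B, out, hout⟩ : Dat C).main

/-- only gates cancel -/
theorem Cancels.isGate {V : Type*} {C : Circuit F V} {v : Fin C.nodes} {d : V →₀ ℕ}
    (h : Cancels C v d) : (∃ i j, C.gate v = Gate.add i j) ∨ ∃ i j, C.gate v = Gate.mul i j := by
  rcases h.2 with ⟨i, j, hg, _⟩ | ⟨i, j, hg, _⟩
  · exact Or.inl ⟨i, j, hg⟩
  · exact Or.inr ⟨i, j, hg⟩

theorem cancelled_le (B : Finset (Fin C.nodes)) {t : ℕ} (h : ∀ v, v ∉ B → cancelledAt C v ≤ t) :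
    cancelled C B ≤ t * C.size := by
  classical
  set Q : Finset (Fin C.nodes) := univ.filter fun v => (∃ i j, C.gate v = Gate.add i j) ∨
    ∃ i j, C.gate v = Gate.mul i j with hQ
  have hsize : C.size = Q.card := by
    rw [Circuit.size, Nat.card_eq_fintype_card, Fintype.card_subtype]
  let At : Fin C.nodes → Finset (Fin m × Fin m × Fin m × Fin m) := fun v =>
    univ.filter fun x => Cancels C v (mon x.1 x.2.1 x.2.2.1 x.2.2.2)
  have hAt : ∀ v, (At v).card = cancelledAt C v := by
    intro v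
    unfold cancelledAt
    rw [Nat.card_eq_fintype_card, Fintype.card_subtype]
  have h1 : (univ.filter fun x : Fin m × Fin m × Fin m × Fin m =>
      ∃ v, v ∉ B ∧ Cancels C v (mon x.1 x.2.1 x.2.2.1 x.2.2.2)) ⊆
      (Q.filter fun v => v ∉ B).biUnion At := by
    intro x hx
    obtain ⟨_, v, hv, hc⟩ := mem_filter.1 hx
    rw [mem_biUnion]
    exact ⟨v, mem_filter.2 ⟨mem_filter.2 ⟨mem_univ _, hc.isGate⟩, hv⟩,
      mem_filter.2 ⟨mem_univ _, hc⟩⟩
  unfold cancelled
  rw [Nat.card_eq_fintype_card, Fintype.card_subtype]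
  refine (card_le_card h1).trans (card_biUnion_le.trans ?_)
  refine (sum_le_card_nsmul _ _ t fun v hv => ?_).trans ?_
  · rw [hAt]
    exact h v (mem_filter.1 hv).2
  · rw [smul_eq_mul, mul_comm, hsize]
    exact Nat.mul_le_mul_left _ (card_le_card (filter_subset _ _))

/-- the number of the gates at which many monomials are cancelled -/
theorem heavy_bound (hC : Computes C) (t : ℕ) :
    m ^ 3 ≤ 2 * C.nonscalarCount + t * C.size + m * heavy C t := by
  classical
  set B : Finset (Fin C.nodes) := univ.filter fun v => t < cancelledAt C v with hB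
  have h1 := main hC B
  have h2 : cancelled C B ≤ t * C.size := by
    refine cancelled_le B fun v hv => ?_
    by_contra h
    exact hv (mem_filter.2 ⟨mem_univ _, not_le.1 h⟩)
  have h3 : B.card = heavy C t := by
    unfold heavy
    rw [Nat.card_eq_fintype_card, Fintype.card_subtype]
  rw [h3] at h1
  omega

end mm

end Pool.Agent.K9h26.CN
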