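import Pool.Agent.K9h26.CN.Lower

set_option autoImplicit false

/-!
# Fast matrix multiplication needs many cancellations of monomials with two different inner indices
-/

namespace Pool.Agent.K9h26.CN

open Finset Pool.Agent.H88R3.MM Pool.Agent.H522R2 Pool.Agent.H522R2.Circuit
open Pool.Agent.W946.Sz (poly_var poly_const poly_add poly_mul up_lt mono exists_mono)

/-- the number of the gates at which a monomial `a i k * b k' j` with two different inner indices
`k, k'` in `K` is cancelled -/
noncomputable def crossGates {F : Type*} [Field F] {m : ℕ} (C : Circuit F (Vars m))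
    (K : Finset (Fin m)) : ℕ :=
  Nat.card {v : Fin C.nodes // ∃ k ∈ K, ∃ k' ∈ K, k ≠ k' ∧ ∃ i j, Cancels C v (mon i k k' j)}

/-- the number of the pairs `(k, k')` of different inner indices such that a monomial
`a i k * b k' j` is cancelled at the gate `v` -/
noncomputable def crossPairs {F : Type*} [Field F] {m : ℕ} (C : Circuit F (Vars m))
    (v : Fin C.nodes) : ℕ :=
  Nat.card {x : Fin m × Fin m // x.1 ≠ x.2 ∧ ∃ i j, Cancels C v (mon i x.1 x.2 j)}

/-- the number of the gates at which a monomial `a i k * b k' j` is cancelled for more than `t`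
pairs `(k, k')` of different inner indices -/
noncomputable def heavyPairs {F : Type*} [Field F] {m : ℕ} (C : Circuit F (Vars m)) (t : ℕ) : ℕ :=
  Nat.card {v : Fin C.nodes // t < crossPairs C v}

section general

variable {F V : Type*} [Field F]

theorem coeff_mul_two {x y : V} (h : x ≠ y) (P Q : MvPolynomial V F) :
    (P * Q).coeff (Finsupp.single x 1 + Finsupp.single y 1) =
      P.coeff 0 * Q.coeff (Finsupp.single x 1 + Finsupp.single y 1) +
      P.coeff (Finsupp.single x 1 + Finsupp.single y 1) * Q.coeff 0 +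
      (P.coeff (Finsupp.single x 1) * Q.coeff (Finsupp.single y 1) +
       P.coeff (Finsupp.single y 1) * Q.coeff (Finsupp.single x 1)) := by
  classical
  set d : V →₀ ℕ := Finsupp.single x 1 + Finsupp.single y 1 with hd
  have hdx : d x = 1 := by
    rw [hd, Finsupp.add_apply, Finsupp.single_eq_same, Finsupp.single_eq_of_ne' h.symm, add_zero]
  have hdy : d y = 1 := by
    rw [hd, Finsupp.add_apply, Finsupp.single_eq_same, Finsupp.single_eq_of_ne' h, zero_add]
  have hd0 : d ≠ 0 := fun h0 => by
    rw [h0, Finsupp.zero_apply] at hdx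
    exact absurd hdx (by norm_num)
  have hx0 : (Finsupp.single x 1 : V →₀ ℕ) ≠ 0 := fun h0 => by
    have := DFunLike.congr_fun h0 x
    rw [Finsupp.single_eq_same, Finsupp.zero_apply] at this
    exact absurd this (by norm_num)
  have hy0 : (Finsupp.single y 1 : V →₀ ℕ) ≠ 0 := fun h0 => by
    have := DFunLike.congr_fun h0 y
    rw [Finsupp.single_eq_same, Finsupp.zero_apply] at this
    exact absurd this (by norm_num)
  have hxy : (Finsupp.single x 1 : V →₀ ℕ) ≠ Finsupp.single y 1 := fun h0 => by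
    have := DFunLike.congr_fun h0 x
    rw [Finsupp.single_eq_same, Finsupp.single_eq_of_ne' h.symm] at this
    exact absurd this (by norm_num)
  have hdx' : d ≠ Finsupp.single x 1 := fun h0 => by
    have := DFunLike.congr_fun h0 y
    rw [hdy, Finsupp.single_eq_of_ne' h] at this
    exact absurd this (by norm_num)
  have hdy' : d ≠ Finsupp.single y 1 := fun h0 => by
    have := DFunLike.congr_fun h0 x
    rw [hdx, Finsupp.single_eq_of_ne' h.symm] at this
    exact absurd this (by norm_num)
  rw [MvPolynomial.coeff_mul]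
  have hS : Finset.HasAntidiagonal.antidiagonal d = {((0 : V →₀ ℕ), d), (d, 0),
      (Finsupp.single x 1, Finsupp.single y 1), (Finsupp.single y 1, Finsupp.single x 1)} := by
    ext ⟨d₁, d₂⟩
    rw [Finset.HasAntidiagonal.mem_antidiagonal]
    simp only [mem_insert, mem_singleton, Prod.mk.injEq]
    constructor
    · intro he
      by_cases h₁ : d₁ = 0
      · left
        refine ⟨h₁, ?_⟩
        rw [h₁, zero_add] at he
        exact he
      by_cases h₂ : d₂ = 0
      · right; left
        refine ⟨?_, h₂⟩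
        rw [h₂, add_zero] at he
        exact he
      rcases split_two h he h₁ h₂ with h' | h'
      · exact Or.inr (Or.inr (Or.inl h'))
      · exact Or.inr (Or.inr (Or.inr h'))
    · rintro (⟨rfl, rfl⟩ | ⟨rfl, rfl⟩ | ⟨rfl, rfl⟩ | ⟨rfl, rfl⟩)
      · rw [zero_add]
      · rw [add_zero]
      · rfl
      · rw [hd, add_comm]
  rw [hS, sum_insert, sum_insert, sum_insert, sum_singleton]
  · ring
  · simp only [mem_singleton, Prod.mk.injEq, not_and]
    exact fun h0 => absurd h0 hxy
  · simp only [mem_insert, mem_singleton, Prod.mk.injEq, not_or, not_and]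
    exact ⟨fun h0 => absurd h0 hdx', fun h0 => absurd h0 hdy'⟩
  · simp only [mem_insert, mem_singleton, Prod.mk.injEq, not_or, not_and]
    exact ⟨fun h0 => absurd h0.symm hd0, fun h0 => absurd h0.symm hx0,
      fun h0 => absurd h0.symm hy0⟩

end general

section mm

variable {F : Type*} [Field F] {m : ℕ} {C : Circuit F (Vars m)}

/-- the first input of a multiplication gate -/
noncomputable def lf (C : Circuit F (Vars m)) (v : Fin C.nodes) : MvPolynomial (Vars m) F :=
  match C.gate v with
  | .mul i _ => C.poly (C.up v i)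
  | _ => 0

/-- the second input of a multiplication gate -/
noncomputable def rf (C : Circuit F (Vars m)) (v : Fin C.nodes) : MvPolynomial (Vars m) F :=
  match C.gate v with
  | .mul _ j => C.poly (C.up v j)
  | _ => 0

theorem lf_mul {v : Fin C.nodes} {i j : Fin (v : ℕ)} (h : C.gate v = Gate.mul i j) :
    lf C v = C.poly (C.up v i) := by
  unfold lf
  rw [h]

theorem rf_mul {v : Fin C.nodes} {i j : Fin (v : ℕ)} (h : C.gate v = Gate.mul i j) :
    rf C v = C.poly (C.up v j) := by
  unfold rf
  rw [h]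

theorem lf_ne {v : Fin C.nodes} (h : lf C v ≠ 0) : ∃ i j, C.gate v = Gate.mul i j := by
  unfold lf at h
  cases hg : C.gate v with
  | var z => rw [hg] at h; exact absurd rfl h
  | const c => rw [hg] at h; exact absurd rfl h
  | add i j => rw [hg] at h; exact absurd rfl h
  | mul i j => exact ⟨i, j, rfl⟩

/-- the coefficients of the monomials with inner index `k` -/
noncomputable def Pk (C : Circuit F (Vars m)) (k : Fin m) (v : Fin C.nodes) : Fin m × Fin m → F :=
  fun a => (C.poly v).coeff (mon a.1 k k a.2)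

/-- the new monomials with inner index `k` -/
noncomputable def Tk (C : Circuit F (Vars m)) (k : Fin m) (x : Fin C.nodes × Bool) :
    Fin m × Fin m → F := fun a =>
  if x.2 then (lf C x.1).coeff (Finsupp.single (Sum.inl (a.1, k)) 1) *
    (rf C x.1).coeff (Finsupp.single (Sum.inr (k, a.2)) 1)
  else (lf C x.1).coeff (Finsupp.single (Sum.inr (k, a.2)) 1) *
    (rf C x.1).coeff (Finsupp.single (Sum.inl (a.1, k)) 1)

/-- the nodes which contribute to an output without passing through `B` -/
def Dat.Rel (D : Dat C) (v : Fin C.nodes) : Prop := ∃ a : Fin m × Fin m, Rch C D.B (D.out a.1 a.2) v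

theorem Dat.span_mem (D : Dat C) (k : Fin m) (W : Submodule F (Fin m × Fin m → F))
    (h1 : ∀ v ∈ D.B, Pk C k v ∈ W)
    (h2 : ∀ v, v ∉ D.B → D.Rel v → ∀ s, Tk C k (v, s) ∈ W) :
    ∀ v, D.Rel v → Pk C k v ∈ W := by
  intro v
  induction v using WellFoundedLT.induction with
  | _ v ih =>
  rintro ⟨a, ha⟩
  by_cases hB : v ∈ D.B
  · exact h1 v hB
  cases hg : C.gate v with
  | var z =>
    have : Pk C k v = 0 := by
      funext b
      unfold Pk
      rw [poly_var hg, coeff_X_mon]
      rfl
    rw [this]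
    exact W.zero_mem
  | const c =>
    have : Pk C k v = 0 := by
      funext b
      unfold Pk
      rw [poly_const hg, coeff_C_mon]
      rfl
    rw [this]
    exact W.zero_mem
  | add i j =>
    have : Pk C k v = Pk C k (C.up v i) + Pk C k (C.up v j) := by
      funext b
      unfold Pk
      rw [poly_add hg, MvPolynomial.coeff_add]
      rfl
    rw [this]
    exact W.add_mem (ih _ (up_lt v i) ⟨a, ha.addl hB hg⟩) (ih _ (up_lt v j) ⟨a, ha.addr hB hg⟩)
  | mul i j =>
    have h3 : Pk C k v = (C.poly (C.up v i)).coeff 0 • Pk C k (C.up v j) +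
        (C.poly (C.up v j)).coeff 0 • Pk C k (C.up v i) +
        (Tk C k (v, true) + Tk C k (v, false)) := by
      funext b
      simp only [Pi.add_apply, Pi.smul_apply, smul_eq_mul]
      unfold Pk Tk
      simp only [if_true, Bool.false_eq_true, if_false]
      rw [poly_mul hg, lf_mul hg, rf_mul hg]
      unfold mon
      rw [coeff_mul_two Sum.inl_ne_inr]
      ring
    rw [h3]
    have h4 : ∀ s, Tk C k (v, s) ∈ W := h2 v hB ⟨a, ha⟩
    refine W.add_mem (W.add_mem ?_ ?_) (W.add_mem (h4 _) (h4 _))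
    · by_cases h0 : (C.poly (C.up v i)).coeff 0 = 0
      · rw [h0, zero_smul]
        exact W.zero_mem
      · exact W.smul_mem _ (ih _ (up_lt v j) ⟨a, ha.mulr hB hg h0⟩)
    · by_cases h0 : (C.poly (C.up v j)).coeff 0 = 0
      · rw [h0, zero_smul]
        exact W.zero_mem
      · exact W.smul_mem _ (ih _ (up_lt v i) ⟨a, ha.mull hB hg h0⟩)

open Classical in
/-- the products with inner index `k` -/
noncomputable def Dat.Q (D : Dat C) (k : Fin m) : Finset (Fin C.nodes × Bool) :=
  univ.filter fun x => x.1 ∉ D.B ∧ D.Rel x.1 ∧ Tk C k x ≠ 0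

theorem Dat.mem_Q (D : Dat C) {k : Fin m} {x : Fin C.nodes × Bool} :
    x ∈ D.Q k ↔ x.1 ∉ D.B ∧ D.Rel x.1 ∧ Tk C k x ≠ 0 := by
  classical
  unfold Dat.Q
  rw [mem_filter]
  exact ⟨fun h => h.2, fun h => ⟨mem_univ _, h⟩⟩

theorem Dat.sq_le (D : Dat C) (k : Fin m) : m ^ 2 ≤ D.B.card + (D.Q k).card := by
  classical
  set G : Finset (Fin m × Fin m → F) := D.B.image (Pk C k) ∪ (D.Q k).image (Tk C k) with hG
  set W : Submodule F (Fin m × Fin m → F) := Submodule.span F (G : Set (Fin m × Fin m → F))
    with hW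
  have h1 : ∀ v, D.Rel v → Pk C k v ∈ W := by
    refine D.span_mem k W (fun v hv => ?_) fun v hv hr s => ?_
    · refine Submodule.subset_span ?_
      rw [mem_coe, hG, mem_union]
      exact Or.inl (mem_image_of_mem _ hv)
    · by_cases h0 : Tk C k (v, s) = 0
      · rw [h0]
        exact W.zero_mem
      · refine Submodule.subset_span ?_
        rw [mem_coe, hG, mem_union]
        exact Or.inr (mem_image_of_mem _ (D.mem_Q.2 ⟨hv, hr, h0⟩))
  have h2 : ∀ a : Fin m × Fin m, (Pi.single a 1 : Fin m × Fin m → F) ∈ W := by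
    intro a
    have h3 : Pk C k (D.out a.1 a.2) = Pi.single a 1 := by
      funext b
      unfold Pk
      rw [D.hout]
      by_cases hb : b = a
      · rw [hb, coeff_entry_one, Pi.single_eq_same]
      · rw [Pi.single_eq_of_ne hb]
        by_contra h0
        obtain ⟨h4, h5, _⟩ := coeff_entry_mon h0
        exact hb (Prod.ext h4 h5)
    rw [← h3]
    exact h1 _ ⟨a, .base⟩
  have h3 : W = ⊤ := by
    rw [eq_top_iff]
    intro f _
    rw [pi_eq_sum_univ' f]
    refine W.sum_mem fun a _ => W.smul_mem _ ?_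
    have : (fun j => if a = j then (1 : F) else 0) = (Pi.single a 1 : Fin m × Fin m → F) := by
      funext j
      rw [Pi.single_apply]
      simp only [eq_comm]
    convert h2 a
  have h4 : Module.finrank F W = m ^ 2 := by
    rw [h3, finrank_top, Module.finrank_fintype_fun_eq_card, Fintype.card_prod, Fintype.card_fin]
    ring
  have h5 : Module.finrank F W ≤ G.card := finrank_span_finset_le_card G
  have h6 : G.card ≤ D.B.card + (D.Q k).card := by
    rw [hG]
    refine (card_union_le _ _).trans ?_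
    exact Nat.add_le_add card_image_le card_image_le
  rw [h4] at h5
  exact h5.trans h6

theorem Dat.Q_disjoint (D : Dat C) {k k' : Fin m} (hk : k ≠ k')
    (h : ∀ w, w ∉ D.B → ∀ i j, ¬ Cancels C w (mon i k k' j)) : Disjoint (D.Q k) (D.Q k') := by
  rw [Finset.disjoint_left]
  rintro ⟨v, s⟩ hx hx'
  obtain ⟨hB, ⟨a, ha⟩, h0⟩ := D.mem_Q.1 hx
  obtain ⟨_, _, h0'⟩ := D.mem_Q.1 hx'
  simp only at hB ha
  obtain ⟨b, hb⟩ := Function.ne_iff.1 h0
  obtain ⟨b', hb'⟩ := Function.ne_iff.1 h0'
  simp only [Tk, Pi.zero_apply] at hb hb'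
  have hmul : ∃ i j, C.gate v = Gate.mul i j := by
    refine lf_ne fun h0 => ?_
    rw [h0] at hb
    simp at hb
  obtain ⟨i, j, hg⟩ := hmul
  rw [lf_mul hg, rf_mul hg] at hb hb'
  have key : ∃ i₁ j₁, (C.poly v).coeff (mon i₁ k k' j₁) ≠ 0 := by
    cases s with
    | true =>
      simp only [if_true] at hb hb'
      have h1 := left_ne_zero_of_mul hb
      have h2 := right_ne_zero_of_mul hb'
      refine ⟨b.1, b'.2, fun hz => h v hB b.1 b'.2 ⟨hz, Or.inr ⟨i, j, hg, _, _, rfl, h1, h2⟩⟩⟩
    | false =>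
      simp only [Bool.false_eq_true, if_false] at hb hb'
      have h1 := right_ne_zero_of_mul hb
      have h2 := left_ne_zero_of_mul hb'
      refine ⟨b.1, b'.2, fun hz => h v hB b.1 b'.2 ⟨hz, Or.inr ⟨i, j, hg, _, _,
        add_comm _ _, h2, h1⟩⟩⟩
  obtain ⟨i₁, j₁, hc⟩ := key
  have h1 := ha.persist (fun w hw => h w hw i₁ j₁) hc
  rw [D.hout] at h1
  exact hk (coeff_entry_mon h1).2.2

theorem Dat.Q_nonscalar (D : Dat C) {k : Fin m} {x : Fin C.nodes × Bool} (hx : x ∈ D.Q k) :
    C.IsNonscalar x.1 := by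
  obtain ⟨v, s⟩ := x
  obtain ⟨_, _, h0⟩ := D.mem_Q.1 hx
  obtain ⟨b, hb⟩ := Function.ne_iff.1 h0
  simp only [Tk, Pi.zero_apply] at hb
  have hmul : ∃ i j, C.gate v = Gate.mul i j := by
    refine lf_ne fun h0 => ?_
    rw [h0] at hb
    simp at hb
  obtain ⟨i, j, hg⟩ := hmul
  rw [lf_mul hg, rf_mul hg] at hb
  refine ⟨i, j, hg, ?_⟩
  cases s with
  | true =>
    simp only [if_true] at hb
    exact ⟨single_ne_C _ _ (left_ne_zero_of_mul hb), single_ne_C _ _ (right_ne_zero_of_mul hb)⟩
  | false =>
    simp only [Bool.false_eq_true, if_false] at hb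
    exact ⟨single_ne_C _ _ (left_ne_zero_of_mul hb), single_ne_C _ _ (right_ne_zero_of_mul hb)⟩

theorem Dat.pairs_main (D : Dat C) (K : Finset (Fin m))
    (h : ∀ k ∈ K, ∀ k' ∈ K, k ≠ k' → ∀ w, w ∉ D.B → ∀ i j, ¬ Cancels C w (mon i k k' j)) :
    m ^ 2 * K.card ≤ 2 * C.nonscalarCount + K.card * D.B.card := by
  classical
  have h1 : ∑ k ∈ K, m ^ 2 ≤ ∑ k ∈ K, (D.B.card + (D.Q k).card) :=
    sum_le_sum fun k _ => D.sq_le k
  rw [sum_const, sum_add_distrib, sum_const, smul_eq_mul, smul_eq_mul] at h1
  have h2 : ∑ k ∈ K, (D.Q k).card ≤ 2 * C.nonscalarCount := by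
    rw [← card_biUnion]
    · have h3 : K.biUnion D.Q ⊆ (univ.filter fun v => C.IsNonscalar v) ×ˢ (univ : Finset Bool) := by
        intro x hx
        obtain ⟨k, _, hx'⟩ := mem_biUnion.1 hx
        rw [mem_product]
        exact ⟨mem_filter.2 ⟨mem_univ _, D.Q_nonscalar hx'⟩, mem_univ _⟩
      refine (card_le_card h3).trans ?_
      rw [card_product, card_univ, Fintype.card_bool, Circuit.nonscalarCount,
        Nat.card_eq_fintype_card, Fintype.card_subtype, mul_comm]
    · intro k hk k' hk' hne
      exact D.Q_disjoint hne (h k hk k' hk' hne)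
  calc m ^ 2 * K.card = K.card * m ^ 2 := mul_comm _ _
    _ ≤ K.card * D.B.card + ∑ k ∈ K, (D.Q k).card := h1
    _ ≤ K.card * D.B.card + 2 * C.nonscalarCount := Nat.add_le_add_left h2 _
    _ = _ := add_comm _ _

/-- **the basic inequality** -/
theorem pairs_main (hC : Computes C) (B : Finset (Fin C.nodes)) (K : Finset (Fin m))
    (h : ∀ k ∈ K, ∀ k' ∈ K, k ≠ k' → ∀ w, w ∉ B → ∀ i j, ¬ Cancels C w (mon i k k' j)) :
    m ^ 2 * K.card ≤ 2 * C.nonscalarCount + K.card * B.card := by
  choose out hout using hC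
  exact (⟨B, out, hout⟩ : Dat C).pairs_main K h

theorem cross_main (hC : Computes C) (K : Finset (Fin m)) :
    m ^ 2 * K.card ≤ 2 * C.nonscalarCount + K.card * crossGates C K := by
  classical
  have h1 := pairs_main hC (univ.filter fun v : Fin C.nodes => ∃ k ∈ K, ∃ k' ∈ K, k ≠ k' ∧
    ∃ i j, Cancels C v (mon i k k' j)) K ?_
  · rw [crossGates, Nat.card_eq_fintype_card, Fintype.card_subtype]
    exact h1
  · intro k hk k' hk' hne w hw i j hc
    exact hw (mem_filter.2 ⟨mem_univ _, k, hk, k', hk', hne, i, j, hc⟩)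

end mm

end Pool.Agent.K9h26.CN
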