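import Pool.Agent.K9h26.CN.Lower
import Pool.Agent.W956.KF.Cost

set_option autoImplicit false

/-!
# `m²` cancelling gates suffice over ordered fields
-/

namespace Pool.Agent.K9h26.CN

open Finset Pool.Agent.H88R3.MM Pool.Agent.H522R2 Pool.Agent.H522R2.Circuit Pool.Agent.W956.KF
open Pool.Agent.W946.Sz (poly_var poly_const poly_add poly_mul up_lt)

section snoc

variable {K : Type} [Field K] {V : Type}

theorem cancels_snoc (C : Circuit K V) (g : Gate K V C.nodes) (v : Fin C.nodes) (d : V →₀ ℕ)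
    (h : Cancels (snoc C g) v.castSucc d) : Cancels C v d := by
  obtain ⟨h0, h⟩ := h
  have hg := snoc_gate_castSucc C g v
  rw [poly_snoc] at h0
  refine ⟨h0, ?_⟩
  rcases h with ⟨i, j, h1, h2⟩ | ⟨i, j, h1, d₁, d₂, h2, h3, h4⟩
  · left
    rw [hg] at h1
    refine ⟨i, j, h1, ?_⟩
    have e1 : (snoc C g).poly ((snoc C g).up v.castSucc i) = C.poly (C.up v i) :=
      poly_snoc C g (C.up v i)
    have e2 : (snoc C g).poly ((snoc C g).up v.castSucc j) = C.poly (C.up v j) :=
      poly_snoc C g (C.up v j)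
    rw [e1, e2] at h2
    exact h2
  · right
    rw [hg] at h1
    refine ⟨i, j, h1, d₁, d₂, h2, ?_, ?_⟩
    · have e1 : (snoc C g).poly ((snoc C g).up v.castSucc i) = C.poly (C.up v i) :=
        poly_snoc C g (C.up v i)
      rwa [e1] at h3
    · have e2 : (snoc C g).poly ((snoc C g).up v.castSucc j) = C.poly (C.up v j) :=
        poly_snoc C g (C.up v j)
      rwa [e2] at h4

/-- no cancellation outside `B` -/
def Clean (C : Circuit K V) (B : Finset (Fin C.nodes)) : Prop :=
  ∀ v, v ∉ B → ∀ d, ¬ Cancels C v d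

/-- the nodes of `B` in the longer circuit -/
def lift {C : Circuit K V} (g : Gate K V C.nodes) (B : Finset (Fin C.nodes)) :
    Finset (Fin (snoc C g).nodes) :=
  Finset.map (Fin.castSuccEmb : Fin C.nodes ↪ Fin (C.nodes + 1)) B

theorem mem_lift {C : Circuit K V} {g : Gate K V C.nodes} {B : Finset (Fin C.nodes)}
    {v : Fin C.nodes} (h : v ∈ B) : (v.castSucc : Fin (C.nodes + 1)) ∈ lift g B :=
  Finset.mem_map.2 ⟨v, h, rfl⟩

theorem card_lift {C : Circuit K V} (g : Gate K V C.nodes) (B : Finset (Fin C.nodes)) :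
    (lift g B).card = B.card := Finset.card_map _

theorem Clean.ext {C : Circuit K V} {B : Finset (Fin C.nodes)} (h : Clean C B)
    (g : Gate K V C.nodes) (hg : ∀ d, ¬ Cancels (snoc C g) (Fin.last C.nodes) d) :
    Clean (snoc C g) (lift g B) := by
  intro v hv d
  refine Fin.lastCases (motive := fun v : Fin (C.nodes + 1) => v ∉ lift g B →
    ¬ Cancels (snoc C g) v d) (fun _ => hg d) (fun v hv hc => ?_) v hv
  exact h v (fun hB => hv (mem_lift hB)) d (cancels_snoc C g v d hc)

theorem Clean.ext_bad {C : Circuit K V} {B : Finset (Fin C.nodes)} (h : Clean C B)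
    (g : Gate K V C.nodes) : ∃ B' : Finset (Fin (snoc C g).nodes), Clean (snoc C g) B' ∧
      B'.card ≤ B.card + 1 := by
  classical
  refine ⟨insert (Fin.last C.nodes : Fin (C.nodes + 1)) (lift g B), ?_, ?_⟩
  · intro v hv d
    refine Fin.lastCases (motive := fun v : Fin (C.nodes + 1) =>
      v ∉ insert (Fin.last C.nodes : Fin (C.nodes + 1)) (lift g B) → ¬ Cancels (snoc C g) v d)
      (fun hl => absurd (mem_insert_self _ _) hl) (fun v hv hc => ?_) v hv
    exact h v (fun hB => hv (mem_insert_of_mem (mem_lift hB))) d (cancels_snoc C g v d hc)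
  · refine (card_insert_le _ _).trans ?_
    rw [card_lift]

theorem not_cancels_const (C : Circuit K V) (c : K) (d : V →₀ ℕ) :
    ¬ Cancels (snoc C (Gate.const c)) (Fin.last C.nodes) d := by
  rintro ⟨_, ⟨i, j, h, _⟩ | ⟨i, j, h, _⟩⟩
  · rw [snoc_gate_last] at h
    cases h
  · rw [snoc_gate_last] at h
    cases h

/-- multiplication by a constant does not cancel -/
theorem not_cancels_smul (C : Circuit K V) (a b : Fin C.nodes) {c : K}
    (ha : C.poly a = MvPolynomial.C c) (d : V →₀ ℕ) :
    ¬ Cancels (snoc C (Gate.mul a b)) (Fin.last C.nodes) d := by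
  classical
  rintro ⟨h0, ⟨i, j, h, _⟩ | ⟨i, j, h, d₁, d₂, h1, h2, h3⟩⟩
  · rw [snoc_gate_last] at h
    cases h
  · rw [snoc_gate_last] at h
    have h' : a = i ∧ b = j := by
      rw [Gate.mul.injEq] at h
      exact h
    obtain ⟨rfl, rfl⟩ := h'
    have e1 : (snoc C (Gate.mul a b)).poly ((snoc C (Gate.mul a b)).up (Fin.last C.nodes) a) =
        C.poly a := poly_snoc C _ a
    have e2 : (snoc C (Gate.mul a b)).poly ((snoc C (Gate.mul a b)).up (Fin.last C.nodes) b) =
        C.poly b := poly_snoc C _ b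
    rw [e1, ha, MvPolynomial.coeff_C] at h2
    rw [e2] at h3
    have hd : (0 : V →₀ ℕ) = d₁ := by
      by_contra hne
      exact h2 (if_neg hne)
    rw [if_pos hd] at h2
    rw [poly_snoc_last] at h0
    simp only at h0
    rw [ha, MvPolynomial.coeff_C_mul, ← h1, ← hd, zero_add] at h0
    exact (mul_ne_zero h2 h3) h0

end snoc

section ordered

variable {K : Type} [Field K] [LinearOrder K] [IsStrictOrderedRing K] {V : Type}

/-- all coefficients are nonnegative -/
def NN (D : Circuit K V) : Prop := ∀ v d, 0 ≤ (D.poly v).coeff d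

theorem coeff_mul_nonneg {f g : MvPolynomial V K} (hf : ∀ d, 0 ≤ f.coeff d)
    (hg : ∀ d, 0 ≤ g.coeff d) (d : V →₀ ℕ) : 0 ≤ (f * g).coeff d := by
  classical
  rw [MvPolynomial.coeff_mul]
  exact sum_nonneg fun x _ => mul_nonneg (hf _) (hg _)

theorem NN.clean {D : Circuit K V} (h : NN D) : Clean D ∅ := by
  classical
  intro v _ d hc
  obtain ⟨h0, ⟨i, j, hg, h1⟩ | ⟨i, j, hg, d₁, d₂, hd, h1, h2⟩⟩ := hc
  · rw [poly_add hg, MvPolynomial.coeff_add] at h0
    have h2 := h (D.up v i) d
    have h3 := h (D.up v j) d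
    rcases h1 with h1 | h1
    · exact h1 (by linarith)
    · exact h1 (by linarith)
  · rw [poly_mul hg, MvPolynomial.coeff_mul] at h0
    rw [sum_eq_zero_iff_of_nonneg fun x _ => mul_nonneg (h _ _) (h _ _)] at h0
    have h3 := h0 (d₁, d₂) (by rw [Finset.HasAntidiagonal.mem_antidiagonal]; exact hd)
    exact (mul_ne_zero h1 h2) h3

theorem NN.ext {D : Circuit K V} (h : NN D) (g : Gate K V D.nodes)
    (hg : ∀ d, 0 ≤ ((snoc D g).poly (Fin.last D.nodes)).coeff d) : NN (snoc D g) := by
  intro v d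
  refine Fin.lastCases (motive := fun v => 0 ≤ ((snoc D g).poly v).coeff d) (hg d)
    (fun v => ?_) v
  rw [poly_snoc]
  exact h v d

theorem step_add {D : Circuit K V} {P : Set (MvPolynomial V K)} (h : NN D) (hP : Comp D P)
    {f g : MvPolynomial V K} (hf : f ∈ P) (hg : g ∈ P) :
    ∃ D' : Circuit K V, NN D' ∧ D'.size ≤ D.size + 1 ∧ Comp D' (insert (f + g) P) := by
  obtain ⟨a, ha⟩ := hP f hf
  obtain ⟨b, hb⟩ := hP g hg
  have hl : (snoc D (Gate.add a b)).poly (Fin.last D.nodes) = f + g := by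
    rw [poly_snoc_last]
    simp only
    rw [ha, hb]
  refine ⟨snoc D (Gate.add a b), h.ext _ fun d => ?_, size_snoc_le _ _, ?_⟩
  · rw [hl, MvPolynomial.coeff_add, ← ha, ← hb]
    exact add_nonneg (h _ _) (h _ _)
  · intro x hx
    rcases Set.mem_insert_iff.1 hx with rfl | hx
    · exact ⟨Fin.last D.nodes, hl⟩
    · exact hP.snoc _ x hx

theorem step_mul {D : Circuit K V} {P : Set (MvPolynomial V K)} (h : NN D) (hP : Comp D P)
    {f g : MvPolynomial V K} (hf : f ∈ P) (hg : g ∈ P) :
    ∃ D' : Circuit K V, NN D' ∧ D'.size ≤ D.size + 1 ∧ Comp D' (insert (f * g) P) := by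
  obtain ⟨a, ha⟩ := hP f hf
  obtain ⟨b, hb⟩ := hP g hg
  have hl : (snoc D (Gate.mul a b)).poly (Fin.last D.nodes) = f * g := by
    rw [poly_snoc_last]
    simp only
    rw [ha, hb]
  refine ⟨snoc D (Gate.mul a b), h.ext _ fun d => ?_, size_snoc_le _ _, ?_⟩
  · rw [hl, ← ha, ← hb]
    exact coeff_mul_nonneg (h _) (h _) d
  · intro x hx
    rcases Set.mem_insert_iff.1 hx with rfl | hx
    · exact ⟨Fin.last D.nodes, hl⟩
    · exact hP.snoc _ x hx

theorem step_const {D : Circuit K V} {P : Set (MvPolynomial V K)} (h : NN D) (hP : Comp D P)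
    {c : K} (hc : 0 ≤ c) :
    ∃ D' : Circuit K V, NN D' ∧ D'.size ≤ D.size ∧ Comp D' (insert (MvPolynomial.C c) P) := by
  classical
  have hl : (snoc D (Gate.const c)).poly (Fin.last D.nodes) = MvPolynomial.C c := by
    rw [poly_snoc_last]
  refine ⟨snoc D (Gate.const c), h.ext _ fun d => ?_, size_snoc_input _ _ ?_, ?_⟩
  · rw [hl, MvPolynomial.coeff_C]
    split_ifs
    · exact hc
    · exact le_rfl
  · rintro (⟨i, j, h⟩ | ⟨i, j, h⟩) <;> cases h
  · intro x hx
    rcases Set.mem_insert_iff.1 hx with rfl | hx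
    · exact ⟨Fin.last D.nodes, hl⟩
    · exact hP.snoc _ x hx

theorem step_var {D : Circuit K V} {P : Set (MvPolynomial V K)} (h : NN D) (hP : Comp D P)
    (z : V) :
    ∃ D' : Circuit K V, NN D' ∧ D'.size ≤ D.size ∧ Comp D' (insert (MvPolynomial.X z) P) := by
  classical
  have hl : (snoc D (Gate.var z)).poly (Fin.last D.nodes) = MvPolynomial.X z := by
    rw [poly_snoc_last]
  refine ⟨snoc D (Gate.var z), h.ext _ fun d => ?_, size_snoc_input _ _ ?_, ?_⟩
  · rw [hl, MvPolynomial.coeff_X]
    split_ifs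
    · exact zero_le_one
    · exact le_rfl
  · rintro (⟨i, j, h⟩ | ⟨i, j, h⟩) <;> cases h
  · intro x hx
    rcases Set.mem_insert_iff.1 hx with rfl | hx
    · exact ⟨Fin.last D.nodes, hl⟩
    · exact hP.snoc _ x hx

/-- the gates before `t` -/
noncomputable def before (C : Circuit K V) (t : ℕ) : ℕ :=
  Nat.card {v : Fin C.nodes // (v : ℕ) < t ∧
    ((∃ i j, C.gate v = Gate.add i j) ∨ ∃ i j, C.gate v = Gate.mul i j)}

theorem before_succ (C : Circuit K V) {t : ℕ} (ht : t < C.nodes)
    (h : (∃ i j, C.gate ⟨t, ht⟩ = Gate.add i j) ∨ ∃ i j, C.gate ⟨t, ht⟩ = Gate.mul i j) :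
    before C t + 1 ≤ before C (t + 1) := by
  classical
  unfold before
  rw [Nat.card_eq_fintype_card, Nat.card_eq_fintype_card, Fintype.card_subtype,
    Fintype.card_subtype]
  rw [← card_insert_of_notMem (a := (⟨t, ht⟩ : Fin C.nodes))]
  · refine card_le_card fun v hv => ?_
    rcases mem_insert.1 hv with rfl | hv
    · exact mem_filter.2 ⟨mem_univ _, Nat.lt_succ_self _, h⟩
    · obtain ⟨_, h1, h2⟩ := mem_filter.1 hv
      exact mem_filter.2 ⟨mem_univ _, Nat.lt_succ_of_lt h1, h2⟩
  · intro hcon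
    obtain ⟨_, h1, _⟩ := mem_filter.1 hcon
    exact lt_irrefl _ h1

theorem before_mono (C : Circuit K V) (t : ℕ) : before C t ≤ before C (t + 1) := by
  classical
  unfold before
  rw [Nat.card_eq_fintype_card, Nat.card_eq_fintype_card, Fintype.card_subtype,
    Fintype.card_subtype]
  refine card_le_card fun v hv => ?_
  obtain ⟨_, h1, h2⟩ := mem_filter.1 hv
  exact mem_filter.2 ⟨mem_univ _, Nat.lt_succ_of_lt h1, h2⟩

theorem before_le (C : Circuit K V) (t : ℕ) : before C t ≤ C.size := by
  classical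
  unfold before Circuit.size
  rw [Nat.card_eq_fintype_card, Nat.card_eq_fintype_card, Fintype.card_subtype,
    Fintype.card_subtype]
  refine card_le_card fun v hv => ?_
  exact mem_filter.2 ⟨mem_univ _, (mem_filter.1 hv).2.2⟩

/-- the positive and the negative parts -/
theorem exists_parts (C : Circuit K V) (t : ℕ) (ht : t ≤ C.nodes) :
    ∃ (D : Circuit K V) (p q : Fin C.nodes → MvPolynomial V K), NN D ∧
      D.size ≤ 6 * before C t ∧ Comp D {x | ∃ v : Fin C.nodes, (v : ℕ) < t ∧ (x = p v ∨ x = q v)} ∧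
      ∀ v : Fin C.nodes, (v : ℕ) < t → C.poly v = p v - q v := by
  classical
  induction t with
  | zero =>
    refine ⟨⟨0, fun k => k.elim0⟩, fun _ => 0, fun _ => 0, fun v => v.elim0, ?_, ?_, ?_⟩
    · have : (⟨0, fun k => k.elim0⟩ : Circuit K V).size = 0 := by
        unfold Circuit.size
        rw [Nat.card_eq_zero]
        left
        exact ⟨fun v => v.1.elim0⟩
      rw [this]
      exact Nat.zero_le _
    · rintro x ⟨v, hv, _⟩
      exact absurd hv (Nat.not_lt_zero _)
    · intro v hv
      exact absurd hv (Nat.not_lt_zero _)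
  | succ t ih =>
    obtain ⟨D, p, q, hN, hs, hc, hpq⟩ := ih (by omega)
    set P : Set (MvPolynomial V K) := {x | ∃ v : Fin C.nodes, (v : ℕ) < t ∧ (x = p v ∨ x = q v)}
      with hP
    set w : Fin C.nodes := ⟨t, ht⟩ with hw
    have hpP : ∀ v : Fin C.nodes, (v : ℕ) < t → p v ∈ P := fun v hv => ⟨v, hv, Or.inl rfl⟩
    have hqP : ∀ v : Fin C.nodes, (v : ℕ) < t → q v ∈ P := fun v hv => ⟨v, hv, Or.inr rfl⟩
    -- it suffices to construct the new pair
    suffices h : ∃ (D' : Circuit K V) (p' q' : MvPolynomial V K), NN D' ∧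
        D'.size ≤ 6 * before C (t + 1) ∧ Comp D' (insert p' (insert q' P)) ∧
        C.poly w = p' - q' by
      obtain ⟨D', p', q', h1, h2, h3, h4⟩ := h
      refine ⟨D', Function.update p w p', Function.update q w q', h1, h2, ?_, ?_⟩
      · rintro x ⟨v, hv, hx⟩
        refine h3 x ?_
        rw [Set.mem_insert_iff, Set.mem_insert_iff]
        by_cases hvw : v = w
        · subst hvw
          rw [Function.update_self, Function.update_self] at hx
          tauto
        · rw [Function.update_of_ne hvw, Function.update_of_ne hvw] at hx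
          have hvt : (v : ℕ) < t := by
            have : (v : ℕ) ≠ t := fun h => hvw (Fin.ext h)
            omega
          right
          right
          exact ⟨v, hvt, hx⟩
      · intro v hv
        by_cases hvw : v = w
        · subst hvw
          rw [Function.update_self, Function.update_self]
          exact h4
        · rw [Function.update_of_ne hvw, Function.update_of_ne hvw]
          refine hpq v ?_
          have : (v : ℕ) ≠ t := fun h => hvw (Fin.ext h)
          omega
    have hmono := before_mono C t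
    cases hg : C.gate w with
    | var z =>
      obtain ⟨D₁, a1, a2, a3⟩ := step_const hN hc (le_refl (0 : K))
      obtain ⟨D₂, b1, b2, b3⟩ := step_var a1 a3 z
      refine ⟨D₂, MvPolynomial.X z, MvPolynomial.C 0, b1, by omega, b3, ?_⟩
      rw [poly_var hg, map_zero, sub_zero]
    | const c =>
      obtain ⟨D₁, a1, a2, a3⟩ := step_const hN hc (le_max_right (-c) 0)
      obtain ⟨D₂, b1, b2, b3⟩ := step_const a1 a3 (le_max_right c 0)
      refine ⟨D₂, MvPolynomial.C (max c 0), MvPolynomial.C (max (-c) 0), b1, by omega, b3, ?_⟩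
      rw [poly_const hg, ← map_sub]
      congr 1
      rcases le_total c 0 with h | h
      · rw [max_eq_right h, max_eq_left (by linarith)]; ring
      · rw [max_eq_left h, max_eq_right (by linarith)]; ring
    | add i j =>
      have hb := before_succ C ht (Or.inl ⟨i, j, hg⟩)
      have hi : ((C.up w i : Fin C.nodes) : ℕ) < t := i.2
      have hj : ((C.up w j : Fin C.nodes) : ℕ) < t := j.2
      obtain ⟨D₁, a1, a2, a3⟩ := step_add hN hc (hqP _ hi) (hqP _ hj)
      obtain ⟨D₂, b1, b2, b3⟩ := step_add a1 a3 (Set.mem_insert_of_mem _ (hpP _ hi))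
        (Set.mem_insert_of_mem _ (hpP _ hj))
      refine ⟨D₂, _, _, b1, by omega, b3, ?_⟩
      rw [poly_add hg, hpq _ hi, hpq _ hj]
      ring
    | mul i j =>
      have hb := before_succ C ht (Or.inr ⟨i, j, hg⟩)
      have hi : ((C.up w i : Fin C.nodes) : ℕ) < t := i.2
      have hj : ((C.up w j : Fin C.nodes) : ℕ) < t := j.2
      obtain ⟨D₁, a1, a2, a3⟩ := step_mul hN hc (hpP _ hi) (hpP _ hj)
      obtain ⟨D₂, b1, b2, b3⟩ := step_mul a1 a3 (Set.mem_insert_of_mem _ (hqP _ hi))
        (Set.mem_insert_of_mem _ (hqP _ hj))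
      obtain ⟨D₃, c1, c2, c3⟩ := step_mul b1 b3
        (Set.mem_insert_of_mem _ (Set.mem_insert_of_mem _ (hpP _ hi)))
        (Set.mem_insert_of_mem _ (Set.mem_insert_of_mem _ (hqP _ hj)))
      obtain ⟨D₄, d1, d2, d3⟩ := step_mul c1 c3
        (Set.mem_insert_of_mem _ (Set.mem_insert_of_mem _ (Set.mem_insert_of_mem _ (hqP _ hi))))
        (Set.mem_insert_of_mem _ (Set.mem_insert_of_mem _ (Set.mem_insert_of_mem _ (hpP _ hj))))
      -- `p q + q p`
      obtain ⟨D₅, e1, e2, e3⟩ := step_add d1 d3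
        (Set.mem_insert_of_mem _ (Set.mem_insert _ _)) (Set.mem_insert _ _)
      -- `p p + q q`
      obtain ⟨D₆, f1, f2, f3⟩ := step_add e1 e3
        (Set.mem_insert_of_mem _ (Set.mem_insert_of_mem _ (Set.mem_insert_of_mem _
          (Set.mem_insert_of_mem _ (Set.mem_insert _ _)))))
        (Set.mem_insert_of_mem _ (Set.mem_insert_of_mem _ (Set.mem_insert_of_mem _
          (Set.mem_insert _ _))))
      refine ⟨D₆, p (C.up w i) * p (C.up w j) + q (C.up w i) * q (C.up w j),
        p (C.up w i) * q (C.up w j) + q (C.up w i) * p (C.up w j), f1, by omega,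
        fun x hx => f3 x ?_, ?_⟩
      · simp only [Set.mem_insert_iff] at hx ⊢
        tauto
      · rw [poly_mul hg, hpq _ hi, hpq _ hj]
        ring

/-- `m²` cancelling gates suffice -/
theorem sharp {m : ℕ} (C : Circuit K (Vars m)) (hC : Computes C) :
    ∃ (E : Circuit K (Vars m)) (B : Finset (Fin E.nodes)), Computes E ∧ B.card ≤ m ^ 2 ∧
      (∀ v, v ∉ B → ∀ d, ¬ Cancels E v d) ∧ E.size ≤ 6 * C.size + 2 * m ^ 2 := by
  classical
  obtain ⟨D, p, q, hN, hs, hc, hpq⟩ := exists_parts C C.nodes le_rfl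
  have hs' : D.size ≤ 6 * C.size := hs.trans (Nat.mul_le_mul_left _ (before_le C _))
  choose out hout using hC
  set P : Set (MvPolynomial (Vars m) K) :=
    {x | ∃ v : Fin C.nodes, (v : ℕ) < C.nodes ∧ (x = p v ∨ x = q v)} with hP
  set one : MvPolynomial (Vars m) K := MvPolynomial.C (-1) with hone
  have key : ∀ O : Finset (Fin m × Fin m), ∃ (E : Circuit K (Vars m)) (B : Finset (Fin E.nodes)),
      Clean E B ∧ B.card ≤ O.card ∧ E.size ≤ D.size + 2 * O.card ∧
      Comp E (insert one P ∪ {x | ∃ a ∈ O, x = entry K m a.1 a.2}) := by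
    intro O
    induction O using Finset.induction_on with
    | empty =>
      refine ⟨snoc D (Gate.const (-1)), lift _ ∅,
        hN.clean.ext _ (not_cancels_const D _), (card_lift _ _).le.trans (by simp), ?_, ?_⟩
      · have : (snoc D (Gate.const (-1))).size ≤ D.size := size_snoc_input _ _ (by
          rintro (⟨i, j, h⟩ | ⟨i, j, h⟩) <;> cases h)
        simpa using this
      · rintro x (hx | ⟨a, ha, _⟩)
        · rcases Set.mem_insert_iff.1 hx with rfl | hx
          · exact ⟨Fin.last D.nodes, by rw [poly_snoc_last]⟩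
          · exact hc.snoc _ x hx
        · exact absurd ha (notMem_empty a)
    | insert a O ha ih =>
      obtain ⟨E, B, h1, h2, h3, h4⟩ := ih
      have hv : ((out a.1 a.2 : Fin C.nodes) : ℕ) < C.nodes := (out a.1 a.2).2
      obtain ⟨k₀, hk₀⟩ := h4 one (Or.inl (Set.mem_insert _ _))
      obtain ⟨kq, hkq⟩ := h4 (q (out a.1 a.2))
        (Or.inl (Set.mem_insert_of_mem _ ⟨_, hv, Or.inr rfl⟩))
      obtain ⟨kp, hkp⟩ := h4 (p (out a.1 a.2))
        (Or.inl (Set.mem_insert_of_mem _ ⟨_, hv, Or.inl rfl⟩))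
      set E₁ := snoc E (Gate.mul k₀ kq) with hE₁
      have g1 : Clean E₁ (lift _ B) :=
        h1.ext _ (not_cancels_smul E k₀ kq hk₀)
      set E₂ := snoc E₁ (Gate.add kp.castSucc (Fin.last E.nodes)) with hE₂
      obtain ⟨B', g2, g3⟩ := g1.ext_bad (Gate.add kp.castSucc (Fin.last E.nodes))
      have g4 : E₁.size ≤ E.size + 1 := size_snoc_le _ _
      have g5 : E₂.size ≤ E₁.size + 1 := size_snoc_le _ _
      rw [card_lift] at g3
      refine ⟨E₂, B', g2, ?_, ?_, ?_⟩
      · rw [card_insert_of_notMem ha]; omega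
      · rw [card_insert_of_notMem ha]; omega
      · have hE₁P : Comp E₁ (insert one P ∪ {x | ∃ a ∈ O, x = entry K m a.1 a.2}) := h4.snoc _
        have hE₂P : Comp E₂ (insert one P ∪ {x | ∃ a ∈ O, x = entry K m a.1 a.2}) := hE₁P.snoc _
        rintro x (hx | ⟨b, hb, hx⟩)
        · exact hE₂P x (Or.inl hx)
        · rcases mem_insert.1 hb with rfl | hb
          · refine ⟨Fin.last E₁.nodes, (poly_snoc_last E₁ _).trans ?_⟩
            simp only
            have e1 : E₁.poly kp.castSucc = p (out b.1 b.2) := (poly_snoc E _ kp).trans hkp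
            have e2 : E₁.poly (Fin.last E.nodes) = one * q (out b.1 b.2) := by
              refine (poly_snoc_last E _).trans ?_
              simp only
              rw [hk₀, hkq]
            rw [e1, e2, hx, ← hout, hpq _ hv, hone, map_neg, map_one]
            ring
          · exact hE₂P x (Or.inr ⟨b, hb, hx⟩)
  obtain ⟨E, B, h1, h2, h3, h4⟩ := key univ
  have hcard : (univ : Finset (Fin m × Fin m)).card = m ^ 2 := by
    rw [card_univ, Fintype.card_prod, Fintype.card_fin, sq]
  rw [hcard] at h2 h3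
  refine ⟨E, B, fun i j => h4 _ (Or.inr ⟨(i, j), mem_univ _, rfl⟩), h2, h1, by omega⟩

end ordered

end Pool.Agent.K9h26.CN
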